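import Mathlib

set_option autoImplicit false

/-!
# Quasi-analyticity after Bang, and Carleman's inequality
-/

namespace Pool.Agent.U667.QA

open Set Filter Topology

/-! ### Bang's proof of the theorem of Denjoy and Carleman -/

section Bang

variable {V : Type*} [NormedAddCommGroup V] [NormedSpace ℝ V] {F : ℕ → ℝ → V} {M : ℕ → ℝ}

/-- the ratios of a logarithmically convex sequence increase -/
lemma ratio_mono (hM : ∀ n, 0 < M n) (hlc : ∀ n, M (n + 1) * M (n + 1) ≤ M n * M (n + 2))
    {n N : ℕ} (h : n ≤ N) : M (n + 1) / M n ≤ M (N + 1) / M N := by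
  induction N, h using Nat.le_induction with
  | base => exact le_rfl
  | succ N hN ih =>
    refine ih.trans ?_
    rw [div_le_div_iff₀ (hM N) (hM (N + 1))]
    have := hlc N
    linarith

/-- all the derivatives at `t` are at most `e ^ (n - N) M n` -/
def Sm (F : ℕ → ℝ → V) (M : ℕ → ℝ) (N : ℕ) (t : ℝ) : Prop :=
  ∀ n, ‖F n t‖ ≤ Real.exp (-N) * (Real.exp n * M n)

/-- one step to the right -/
lemma step (hM : ∀ n, 0 < M n) (hlc : ∀ n, M (n + 1) * M (n + 1) ≤ M n * M (n + 2))
    (hd : ∀ n t, HasDerivAt (F n) (F (n + 1) t) t) (hb : ∀ n t, ‖F n t‖ ≤ M n)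
    {N : ℕ} {s t : ℝ} (hst : s ≤ t) (hts : t - s ≤ M N / (Real.exp 1 * M (N + 1)))
    (hs : Sm F M (N + 1) s) : Sm F M N t := by
  set q : ℝ := Real.exp 1 * (M (N + 1) / M N) with hq
  have hq0 : 0 < q := by
    have := hM N
    have := hM (N + 1)
    positivity
  set b : ℝ := Real.exp (-(N + 1 : ℕ)) with hb'
  have hb0 : 0 < b := Real.exp_pos _
  -- the bound by downward induction
  have key : ∀ j : ℕ, ∀ n : ℕ, n + j = N + 1 → ∀ x ∈ Icc s t,
      ‖F n x‖ ≤ b * (Real.exp n * M n) * Real.exp (q * (x - s)) := by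
    intro j
    induction j with
    | zero =>
      intro n hn x hx
      have hn' : n = N + 1 := by omega
      subst hn'
      have h1 : b * (Real.exp ((N + 1 : ℕ) : ℝ) * M (N + 1)) = M (N + 1) := by
        rw [hb', ← mul_assoc, ← Real.exp_add]
        simp
      rw [h1]
      have h2 : 1 ≤ Real.exp (q * (x - s)) := Real.one_le_exp (mul_nonneg hq0.le (by linarith [hx.1]))
      calc ‖F (N + 1) x‖ ≤ M (N + 1) * 1 := by rw [mul_one]; exact hb _ _
        _ ≤ _ := mul_le_mul_of_nonneg_left h2 (hM _).le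
    | succ j ih =>
      intro n hn x hx
      have hnN : n ≤ N := by omega
      have hder : ∀ y : ℝ, HasDerivAt
          (fun x => b * (Real.exp n * M n) * Real.exp (q * (x - s)))
          (b * (Real.exp n * M n) * (Real.exp (q * (y - s)) * q)) y := by
        intro y
        have h1 : HasDerivAt (fun x : ℝ => q * (x - s)) q y := by
          simpa using ((hasDerivAt_id y).sub_const s).const_mul q
        exact (h1.exp).const_mul _
      have hbase : ‖F n s‖ ≤ b * (Real.exp n * M n) * Real.exp (q * (s - s)) := by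
        rw [sub_self, mul_zero, Real.exp_zero, mul_one]
        exact hs n
      refine image_norm_le_of_norm_deriv_right_le_deriv_boundary
        (f := F n) (f' := F (n + 1)) (a := s) (b := t)
        (B := fun x => b * (Real.exp n * M n) * Real.exp (q * (x - s)))
        (B' := fun y => b * (Real.exp n * M n) * (Real.exp (q * (y - s)) * q))
        (fun y _ => (hd n y).continuousAt.continuousWithinAt)
        (fun y _ => (hd n y).hasDerivWithinAt) hbase hder ?_ hx
      intro y hy
      have h1 := ih (n + 1) (by omega) y ⟨hy.1, hy.2.le⟩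
      refine h1.trans ?_
      have h2 : M (n + 1) ≤ (M (N + 1) / M N) * M n := by
        have := ratio_mono hM hlc hnN
        rwa [div_le_iff₀ (hM n)] at this
      have h3 : Real.exp ((n + 1 : ℕ) : ℝ) = Real.exp n * Real.exp 1 := by
        rw [← Real.exp_add]
        push_cast
        rfl
      rw [h3]
      calc b * (Real.exp n * Real.exp 1 * M (n + 1)) * Real.exp (q * (y - s)) ≤
          b * (Real.exp n * Real.exp 1 * ((M (N + 1) / M N) * M n)) * Real.exp (q * (y - s)) := by
            gcongr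
        _ = _ := by rw [hq]; ring
  intro n
  rcases le_or_gt n N with hn | hn
  · have h1 := key (N + 1 - n) n (by omega) t ⟨hst, le_rfl⟩
    refine h1.trans ?_
    have h2 : Real.exp (q * (t - s)) ≤ Real.exp 1 := by
      refine Real.exp_le_exp.2 ?_
      have h3 : q * (t - s) ≤ q * (M N / (Real.exp 1 * M (N + 1))) :=
        mul_le_mul_of_nonneg_left hts hq0.le
      have h4 : q * (M N / (Real.exp 1 * M (N + 1))) = 1 := by
        rw [hq]
        have := (hM N).ne'
        have := (hM (N + 1)).ne'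
        have := (Real.exp_pos 1).ne'
        field_simp
      linarith
    have h5 : Real.exp (-(N : ℝ)) = b * Real.exp 1 := by
      rw [hb', ← Real.exp_add]
      push_cast
      ring_nf
    rw [h5]
    have := hM n
    calc b * (Real.exp n * M n) * Real.exp (q * (t - s)) ≤
        b * (Real.exp n * M n) * Real.exp 1 := by gcongr
      _ = _ := by ring
  · refine (hb n t).trans ?_
    rw [← mul_assoc, ← Real.exp_add]
    have h1 : 1 ≤ Real.exp (-(N : ℝ) + n) := by
      refine Real.one_le_exp ?_
      have : (N : ℝ) < n := by exact_mod_cast hn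
      linarith
    have := hM n
    nlinarith

lemma steps (hM : ∀ n, 0 < M n) (hlc : ∀ n, M (n + 1) * M (n + 1) ≤ M n * M (n + 2))
    (hd : ∀ n t, HasDerivAt (F n) (F (n + 1) t) t) (hb : ∀ n t, ‖F n t‖ ≤ M n)
    (h0 : ∀ n, F n 0 = 0) (m : ℕ) : ∀ (N : ℕ) (t : ℝ), 0 ≤ t →
      t ≤ ∑ i ∈ Finset.range m, M (N + i) / (Real.exp 1 * M (N + i + 1)) → Sm F M N t := by
  induction m with
  | zero =>
    intro N t ht0 ht
    have ht' : t = 0 := le_antisymm (by simpa using ht) ht0
    intro n
    rw [ht', h0 n, norm_zero]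
    have := hM n
    positivity
  | succ m ih =>
    intro N t ht0 ht
    rw [Finset.sum_range_succ'] at ht
    have hpos : 0 < M (N + 0) / (Real.exp 1 * M (N + 0 + 1)) := by
      have := hM (N + 0)
      have := hM (N + 0 + 1)
      positivity
    set δ : ℝ := M (N + 0) / (Real.exp 1 * M (N + 0 + 1)) with hδ
    have hS0 : 0 ≤ ∑ i ∈ Finset.range m, M (N + (i + 1)) / (Real.exp 1 * M (N + (i + 1) + 1)) :=
      Finset.sum_nonneg fun i _ => by
        have := hM (N + (i + 1))
        have := hM (N + (i + 1) + 1)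
        positivity
    refine step hM hlc hd hb (s := max 0 (t - δ)) (max_le ht0 (by linarith)) ?_ ?_
    · have : t - max 0 (t - δ) ≤ δ := by
        have := le_max_right 0 (t - δ)
        linarith
      simpa [hδ] using this
    · refine ih (N + 1) _ (le_max_left _ _) (max_le ?_ ?_)
      · refine hS0.trans (le_of_eq ?_)
        refine Finset.sum_congr rfl fun i _ => ?_
        rw [show N + (i + 1) = N + 1 + i by ring]
      · have h1 : t - δ ≤
            ∑ i ∈ Finset.range m, M (N + (i + 1)) / (Real.exp 1 * M (N + (i + 1) + 1)) := by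
          linarith
        refine h1.trans (le_of_eq ?_)
        refine Finset.sum_congr rfl fun i _ => ?_
        rw [show N + (i + 1) = N + 1 + i by ring]

/-- **Denjoy–Carleman, sufficiency**: a function with derivatives `‖f⁽ⁿ⁾‖ ≤ M n`, `M`
logarithmically convex with `∑ M n / M (n + 1) = ∞`, which vanishes at `0` with all its derivatives,
vanishes to the right of `0`. -/
theorem bang (hM : ∀ n, 0 < M n) (hlc : ∀ n, M (n + 1) * M (n + 1) ≤ M n * M (n + 2))
    (hd : ∀ n t, HasDerivAt (F n) (F (n + 1) t) t) (hb : ∀ n t, ‖F n t‖ ≤ M n)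
    (h0 : ∀ n, F n 0 = 0) (hs : ¬ Summable fun n => M n / M (n + 1)) {t : ℝ} (ht : 0 ≤ t) :
    F 0 t = 0 := by
  have hall : ∀ N : ℕ, Sm F M N t := by
    intro N
    have h1 : ¬ Summable fun i => M (N + i) / (Real.exp 1 * M (N + i + 1)) := by
      intro h
      apply hs
      have h2 : Summable fun i => M (i + N) / M (i + N + 1) := by
        refine (h.mul_left (Real.exp 1)).congr fun i => ?_
        have := (Real.exp_pos 1).ne'
        have := (hM (N + i + 1)).ne'
        rw [show i + N = N + i by ring]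
        field_simp
      exact (summable_nat_add_iff N).1 h2
    have h2 := (not_summable_iff_tendsto_nat_atTop_of_nonneg (fun i => by
      have := hM (N + i)
      have := hM (N + i + 1)
      positivity)).1 h1
    obtain ⟨m, hm⟩ := (h2.eventually_ge_atTop t).exists
    exact steps hM hlc hd hb h0 m N t ht hm
  have hlim : Tendsto (fun N : ℕ => Real.exp (-N) * (Real.exp (0 : ℕ) * M 0)) atTop
      (𝓝 (0 * (Real.exp (0 : ℕ) * M 0))) := by
    refine Tendsto.mul_const _ ?_
    exact Real.tendsto_exp_atBot.comp (tendsto_neg_atTop_atBot.comp tendsto_natCast_atTop_atTop)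
  rw [zero_mul] at hlim
  have h3 : ‖F 0 t‖ ≤ 0 := ge_of_tendsto hlim (Eventually.of_forall fun N => hall N 0)
  exact norm_le_zero_iff.1 h3

/-- the version on the whole line -/
theorem bang' (hM : ∀ n, 0 < M n) (hlc : ∀ n, M (n + 1) * M (n + 1) ≤ M n * M (n + 2))
    (hd : ∀ n t, HasDerivAt (F n) (F (n + 1) t) t) (hb : ∀ n t, ‖F n t‖ ≤ M n)
    (h0 : ∀ n, F n 0 = 0) (hs : ¬ Summable fun n => M n / M (n + 1)) (t : ℝ) :
    F 0 t = 0 := by
  rcases le_total 0 t with ht | ht
  · exact bang hM hlc hd hb h0 hs ht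
  · have h := bang (F := fun n x => (-1 : ℝ) ^ n • F n (-x)) hM hlc (fun n x => ?_) (fun n x => ?_)
      (fun n => ?_) hs (t := -t) (by linarith)
    · simpa using h
    · have h1 := (hd n (-x)).scomp x ((hasDerivAt_id x).neg)
      have h2 := h1.const_smul ((-1 : ℝ) ^ n)
      refine h2.congr_deriv ?_
      simp only [smul_smul, pow_succ]
    · rw [norm_smul, norm_pow, norm_neg, norm_one, one_pow, one_mul]
      exact hb n (-x)
    · simp [h0 n]

end Bang

/-! ### Carleman's inequality -/

/-- the constants in the proof of Carleman's inequality -/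
noncomputable def cc (k : ℕ) : ℝ := ((k : ℝ) + 2) ^ (k + 1) / ((k : ℝ) + 1) ^ k

lemma cc_pos (k : ℕ) : 0 < cc k := by unfold cc; positivity

lemma prod_cc (n : ℕ) : ∏ k ∈ Finset.range (n + 1), cc k = ((n : ℝ) + 2) ^ (n + 1) := by
  induction n with
  | zero => simp [cc]
  | succ n ih =>
    rw [Finset.prod_range_succ, ih]
    unfold cc
    push_cast
    have : ((n : ℝ) + 1 + 1) ^ (n + 1) ≠ 0 := by positivity
    rw [show (n : ℝ) + 2 = n + 1 + 1 by ring]
    field_simp

lemma cc_le (k : ℕ) : cc k / (k + 1) ≤ Real.exp 1 := by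
  unfold cc
  have h1 : ((k : ℝ) + 2) ^ (k + 1) / ((k : ℝ) + 1) ^ k / (k + 1) = (1 + 1 / ((k : ℝ) + 1)) ^ (k + 1) := by
    rw [div_div, ← pow_succ, ← div_pow]
    congr 1
    field_simp
    ring
  rw [h1]
  have h2 : 1 + 1 / ((k : ℝ) + 1) ≤ Real.exp (1 / ((k : ℝ) + 1)) := by
    have := Real.add_one_le_exp (1 / ((k : ℝ) + 1))
    linarith
  calc (1 + 1 / ((k : ℝ) + 1)) ^ (k + 1) ≤ (Real.exp (1 / ((k : ℝ) + 1))) ^ (k + 1) :=
        pow_le_pow_left₀ (by positivity) h2 _
    _ = Real.exp 1 := by
        rw [← Real.exp_nat_mul]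
        congr 1
        push_cast
        field_simp

/-- the geometric means -/
noncomputable def gm (a : ℕ → ℝ) (n : ℕ) : ℝ :=
  (∏ i ∈ Finset.range (n + 1), a i) ^ (1 / ((n : ℝ) + 1))

lemma gm_le {a : ℕ → ℝ} (ha : ∀ n, 0 ≤ a n) (n : ℕ) :
    gm a n ≤ (∑ i ∈ Finset.range (n + 1), cc i * a i) / (((n : ℝ) + 1) * (n + 2)) := by
  have h := Real.geom_mean_le_arith_mean_weighted (Finset.range (n + 1))
    (fun _ => 1 / ((n : ℝ) + 1)) (fun i => cc i * a i) (fun _ _ => by positivity)
    (by
      rw [Finset.sum_const, Finset.card_range, nsmul_eq_mul]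
      push_cast
      field_simp)
    (fun i _ => mul_nonneg (cc_pos i).le (ha i))
  rw [Real.finsetProd_rpow _ _ (fun i _ => mul_nonneg (cc_pos i).le (ha i)),
    Finset.prod_mul_distrib, prod_cc, Real.mul_rpow (by positivity)
      (Finset.prod_nonneg fun i _ => ha i), ← Finset.mul_sum] at h
  have h1 : (((n : ℝ) + 2) ^ (n + 1)) ^ (1 / ((n : ℝ) + 1)) = n + 2 := by
    rw [← Real.rpow_natCast, ← Real.rpow_mul (by positivity)]
    push_cast
    rw [mul_one_div_cancel (by positivity), Real.rpow_one]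
  rw [h1] at h
  unfold gm
  rw [le_div_iff₀ (by positivity)]
  have h2 : 0 < (n : ℝ) + 1 := by positivity
  calc _ = ((n + 2 : ℝ) * (∏ i ∈ Finset.range (n + 1), a i) ^ (1 / ((n : ℝ) + 1))) * (n + 1) := by
        ring
    _ ≤ (1 / ((n : ℝ) + 1) * ∑ i ∈ Finset.range (n + 1), cc i * a i) * (n + 1) := by gcongr
    _ = _ := by field_simp

/-- **Carleman's inequality** -/
theorem carleman {a : ℕ → ℝ} (ha : ∀ n, 0 ≤ a n) (hs : Summable a) : Summable (gm a) := by
  have hg0 : ∀ n, 0 ≤ gm a n := fun n => Real.rpow_nonneg (Finset.prod_nonneg fun i _ => ha i) _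
  have key : ∀ K : ℕ, ∑ n ∈ Finset.range K, gm a n +
      (∑ i ∈ Finset.range K, cc i * a i) / ((K : ℝ) + 1) ≤
      ∑ i ∈ Finset.range K, Real.exp 1 * a i := by
    intro K
    induction K with
    | zero => simp
    | succ K ih =>
      rw [Finset.sum_range_succ, Finset.sum_range_succ (fun i => Real.exp 1 * a i)]
      set S : ℝ := ∑ i ∈ Finset.range K, cc i * a i with hS
      set S' : ℝ := ∑ i ∈ Finset.range (K + 1), cc i * a i with hS'
      have hSS : S' = S + cc K * a K := Finset.sum_range_succ _ _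
      have h1 := gm_le ha K
      rw [← hS'] at h1
      have h2 : S' / (((K : ℝ) + 1) * (K + 2)) + S' / ((K + 1 : ℕ) + 1) = S' / (K + 1) := by
        push_cast
        field_simp
        ring
      have h3 : S' / (K + 1) = S / (K + 1) + cc K / (K + 1) * a K := by
        rw [hSS]
        ring
      have h4 : cc K / (K + 1) * a K ≤ Real.exp 1 * a K :=
        mul_le_mul_of_nonneg_right (cc_le K) (ha K)
      linarith
  refine summable_of_sum_range_le (c := ∑' i, Real.exp 1 * a i) hg0 fun K => ?_
  have h1 := key K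
  have h2 : ∑ i ∈ Finset.range K, Real.exp 1 * a i ≤ ∑' i, Real.exp 1 * a i :=
    (hs.mul_left _).sum_le_tsum _ fun i _ => mul_nonneg (Real.exp_pos _).le (ha i)
  have h3 : 0 ≤ (∑ i ∈ Finset.range K, cc i * a i) / ((K : ℝ) + 1) :=
    div_nonneg (Finset.sum_nonneg fun i _ => mul_nonneg (cc_pos i).le (ha i)) (by positivity)
  linarith

lemma prod_ratio {M : ℕ → ℝ} (hM : ∀ n, 0 < M n) (n : ℕ) :
    ∏ i ∈ Finset.range n, M i / M (i + 1) = M 0 / M n := by
  induction n with
  | zero => rw [Finset.prod_range_zero, div_self (hM 0).ne']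
  | succ n ih =>
    rw [Finset.prod_range_succ, ih]
    have := (hM n).ne'
    have := (hM (n + 1)).ne'
    field_simp

/-- for a positive sequence: if `∑ (M 0 / M (n + 1)) ^ (1 / (n + 1)) = ∞` then
`∑ M n / M (n + 1) = ∞` -/
theorem not_summable_ratio {M : ℕ → ℝ} (hM : ∀ n, 0 < M n)
    (h : ¬ Summable fun n : ℕ => (M 0 / M (n + 1)) ^ (1 / ((n : ℝ) + 1))) :
    ¬ Summable fun n => M n / M (n + 1) := by
  intro hs
  apply h
  have h1 := carleman (fun n => div_nonneg (hM n).le (hM (n + 1)).le) hs
  refine h1.congr fun n => ?_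
  unfold gm
  beta_reduce
  rw [prod_ratio hM]

end Pool.Agent.U667.QA
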