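import Pool.Agent.U667.QA.HalfC

set_option autoImplicit false

/-!
# Carleman's condition for `exp (-w)`, `w` convex in `log x` with a divergent logarithmic integral
-/

namespace Pool.Agent.U667.QA

open Set Filter Topology MeasureTheory
open scoped ENNReal

section Conv

variable {φ : ℝ → ℝ}

/-- a supporting line -/
lemma supp (hc : ConvexOn ℝ (Ici 0) φ) {t : ℝ} (ht : 0 < t) :
    ∃ q : ℝ, ∀ s, 0 ≤ s → φ t + q * (s - t) ≤ φ s := by
  set S : Set ℝ := (fun s => (φ s - φ t) / (s - t)) '' Ioi t with hS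
  have hlow : ∀ r, 0 ≤ r → r < t → ∀ y ∈ S, (φ t - φ r) / (t - r) ≤ y := by
    rintro r hr hrt y ⟨s, hs, rfl⟩
    have hs' : t < s := hs
    exact hc.slope_mono_adjacent (mem_Ici.2 hr) (mem_Ici.2 (by linarith)) hrt hs'
  have hbdd : BddBelow S := ⟨_, fun y hy => hlow 0 le_rfl ht y hy⟩
  have hne : S.Nonempty := ⟨_, t + 1, by simp, rfl⟩
  refine ⟨sInf S, fun s hs => ?_⟩
  rcases lt_trichotomy s t with h | h | h
  · have h1 : (φ t - φ s) / (t - s) ≤ sInf S := le_csInf hne fun y hy => hlow s hs h y hy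
    rw [div_le_iff₀ (by linarith)] at h1
    linarith
  · rw [h, sub_self, mul_zero, add_zero]
  · have h1 : sInf S ≤ (φ s - φ t) / (s - t) := csInf_le hbdd ⟨s, h, rfl⟩
    rw [le_div_iff₀ (by linarith)] at h1
    linarith

/-- the integral of the positive part of `log x - τ` -/
lemma log_int (τ : ℝ) : ∫⁻ x in Ioi (1 : ℝ), ENNReal.ofReal ((Real.log x - τ) / x ^ 2) ≤
    ENNReal.ofReal (4 * Real.exp (-τ)) := by
  have hI := integrableOn_Ioi_rpow_of_lt (show (-3 / 2 : ℝ) < -1 by norm_num) (Real.exp_pos τ)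
  have hval := integral_Ioi_rpow_of_lt (show (-3 / 2 : ℝ) < -1 by norm_num) (Real.exp_pos τ)
  have h1 : ∀ x ∈ Ioi (1 : ℝ), ENNReal.ofReal ((Real.log x - τ) / x ^ 2) ≤
      (Ioi (Real.exp τ)).indicator
        (fun x => ENNReal.ofReal (2 * Real.exp (-(τ / 2)) * x ^ (-3 / 2 : ℝ))) x := by
    intro x hx
    have hx0 : 0 < x := lt_trans one_pos hx
    by_cases hxt : Real.exp τ < x
    · rw [indicator_of_mem (show x ∈ Ioi (Real.exp τ) from hxt)]
      refine ENNReal.ofReal_le_ofReal ?_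
      have h2 : Real.log x - τ ≤ 2 * (Real.exp (-(τ / 2)) * x ^ (1 / 2 : ℝ)) := by
        have h3 : Real.log (Real.exp (-(τ / 2)) * x ^ (1 / 2 : ℝ)) = (Real.log x - τ) / 2 := by
          rw [Real.log_mul (Real.exp_pos _).ne' (by positivity), Real.log_exp,
            Real.log_rpow hx0]
          ring
        have h4 := Real.log_le_sub_one_of_pos (show
          0 < Real.exp (-(τ / 2)) * x ^ (1 / 2 : ℝ) by positivity)
        rw [h3] at h4
        linarith
      have h5 : x ^ (-3 / 2 : ℝ) = x ^ (1 / 2 : ℝ) / x ^ 2 := by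
        rw [← Real.rpow_natCast x 2, ← Real.rpow_sub hx0]
        norm_num
      rw [h5, div_le_iff₀ (by positivity)]
      calc Real.log x - τ ≤ 2 * (Real.exp (-(τ / 2)) * x ^ (1 / 2 : ℝ)) := h2
        _ = _ := by field_simp
    · rw [indicator_of_notMem (show x ∉ Ioi (Real.exp τ) from hxt)]
      push Not at hxt
      have h2 : Real.log x ≤ τ := by
        rw [← Real.log_exp τ]
        exact Real.log_le_log hx0 hxt
      rw [ENNReal.ofReal_of_nonpos]
      exact div_nonpos_of_nonpos_of_nonneg (by linarith) (by positivity)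
  calc ∫⁻ x in Ioi (1 : ℝ), ENNReal.ofReal ((Real.log x - τ) / x ^ 2) ≤
      ∫⁻ x in Ioi (1 : ℝ), (Ioi (Real.exp τ)).indicator
        (fun x => ENNReal.ofReal (2 * Real.exp (-(τ / 2)) * x ^ (-3 / 2 : ℝ))) x :=
        setLIntegral_mono' measurableSet_Ioi h1
    _ ≤ ∫⁻ x, (Ioi (Real.exp τ)).indicator
        (fun x => ENNReal.ofReal (2 * Real.exp (-(τ / 2)) * x ^ (-3 / 2 : ℝ))) x :=
        setLIntegral_le_lintegral _ _
    _ = ∫⁻ x in Ioi (Real.exp τ), ENNReal.ofReal (2 * Real.exp (-(τ / 2)) * x ^ (-3 / 2 : ℝ)) :=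
        lintegral_indicator measurableSet_Ioi _
    _ = ENNReal.ofReal (∫ x in Ioi (Real.exp τ),
        2 * Real.exp (-(τ / 2)) * x ^ (-3 / 2 : ℝ)) := by
        rw [ofReal_integral_eq_lintegral_ofReal (hI.const_mul _)]
        rw [EventuallyLE, ae_restrict_iff' measurableSet_Ioi]
        refine ae_of_all _ fun x hx => ?_
        have : 0 < x := lt_trans (Real.exp_pos _) hx
        simp only [Pi.zero_apply]
        positivity
    _ = ENNReal.ofReal (4 * Real.exp (-τ)) := by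
        congr 1
        rw [integral_const_mul, hval]
        have h2 : (Real.exp τ) ^ (-3 / 2 + 1 : ℝ) = Real.exp (-(τ / 2)) := by
          rw [← Real.exp_mul]
          congr 1
          ring
        rw [h2]
        have h3 : Real.exp (-τ) = Real.exp (-(τ / 2)) * Real.exp (-(τ / 2)) := by
          rw [← Real.exp_add]
          congr 1
          ring
        rw [h3]
        ring

lemma const_int {a : ℝ} : ∫⁻ x in Ioi (1 : ℝ), ENNReal.ofReal (a / x ^ 2) ≠ ∞ := by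
  have hI := integrableOn_Ioi_rpow_of_lt (show (-2 : ℝ) < -1 by norm_num) one_pos
  have h1 : IntegrableOn (fun x : ℝ => a / x ^ 2) (Ioi 1) := by
    refine IntegrableOn.congr_fun (f := fun x : ℝ => a * x ^ (-2 : ℝ)) (hI.const_mul a)
      (fun x hx => ?_) measurableSet_Ioi
    have hx0 : (0 : ℝ) < x := lt_trans one_pos hx
    beta_reduce
    rw [Real.rpow_neg hx0.le, Real.rpow_two]
    rfl
  exact h1.lintegral_lt_top.ne

/-- superlinear growth -/
lemma superlin (hc : ConvexOn ℝ (Ici 0) φ) (h0 : ∀ t, 0 ≤ t → 0 ≤ φ t)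
    (hdiv : ∫⁻ x in Ioi (1 : ℝ), ENNReal.ofReal (φ (Real.log x) / x ^ 2) = ∞) {c : ℝ}
    (hc0 : 0 ≤ c) : ∃ t0 : ℝ, 0 ≤ t0 ∧ ∀ s, 0 ≤ s → c * (s - t0) ≤ φ s := by
  by_contra hcon
  push Not at hcon
  have h1 : ∀ t, 0 < t → φ t ≤ φ 0 + c * t := by
    intro t ht
    obtain ⟨q, hq⟩ := supp hc ht
    rcases le_or_gt q c with h | h
    · have h2 := hq 0 le_rfl
      nlinarith
    · exfalso
      obtain ⟨s, hs, hs2⟩ := hcon t ht.le
      have h2 := hq s hs
      have h3 := h0 t ht.le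
      have h4 := h0 s hs
      rcases le_or_gt s t with h5 | h5
      · nlinarith
      · nlinarith
  have h2 : ∫⁻ x in Ioi (1 : ℝ), ENNReal.ofReal (φ (Real.log x) / x ^ 2) ≤
      (∫⁻ x in Ioi (1 : ℝ), ENNReal.ofReal (φ 0 / x ^ 2)) +
        ∫⁻ x in Ioi (1 : ℝ), ENNReal.ofReal c * ENNReal.ofReal ((Real.log x - 0) / x ^ 2) := by
    rw [← lintegral_add_left (by fun_prop)]
    refine setLIntegral_mono' measurableSet_Ioi fun x hx => ?_
    have hx1 : (1 : ℝ) < x := hx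
    have hl : 0 < Real.log x := Real.log_pos hx1
    have h00 := h0 0 le_rfl
    rw [← ENNReal.ofReal_mul hc0, ← ENNReal.ofReal_add (by positivity) (by
      rw [sub_zero]
      positivity)]
    refine ENNReal.ofReal_le_ofReal ?_
    rw [sub_zero, ← mul_div_assoc, ← add_div]
    have := h1 _ hl
    gcongr
  rw [hdiv, top_le_iff] at h2
  refine ENNReal.add_ne_top.2 ⟨const_int, ?_⟩ h2
  rw [lintegral_const_mul' _ _ ENNReal.ofReal_ne_top]
  exact ENNReal.mul_ne_top ENNReal.ofReal_ne_top (ne_top_of_le_ne_top ENNReal.ofReal_ne_top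
    (log_int 0))

/-- the conjugate function, at the even numbers -/
noncomputable def SS (φ : ℝ → ℝ) (j : ℕ) : ℝ := sSup ((fun t => 2 * j * t - φ t / 2) '' Ici 0)

lemma SS_bdd (hc : ConvexOn ℝ (Ici 0) φ) (h0 : ∀ t, 0 ≤ t → 0 ≤ φ t)
    (hdiv : ∫⁻ x in Ioi (1 : ℝ), ENNReal.ofReal (φ (Real.log x) / x ^ 2) = ∞) (j : ℕ) :
    BddAbove ((fun t => 2 * j * t - φ t / 2) '' Ici 0) := by
  obtain ⟨t0, ht0, h⟩ := superlin hc h0 hdiv (c := 4 * j) (by positivity)
  refine ⟨2 * j * t0, ?_⟩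
  rintro y ⟨t, ht, rfl⟩
  have := h t ht
  show 2 * (j : ℝ) * t - φ t / 2 ≤ _
  linarith

lemma le_SS (hc : ConvexOn ℝ (Ici 0) φ) (h0 : ∀ t, 0 ≤ t → 0 ≤ φ t)
    (hdiv : ∫⁻ x in Ioi (1 : ℝ), ENNReal.ofReal (φ (Real.log x) / x ^ 2) = ∞) (j : ℕ) {t : ℝ}
    (ht : 0 ≤ t) : 2 * j * t - φ t / 2 ≤ SS φ j :=
  le_csSup (SS_bdd hc h0 hdiv j) ⟨t, ht, rfl⟩

lemma SS_le {j : ℕ} {B : ℝ} (h : ∀ t, 0 ≤ t → 2 * j * t - φ t / 2 ≤ B) : SS φ j ≤ B :=
  csSup_le ⟨_, 0, mem_Ici.2 le_rfl, rfl⟩ (by rintro y ⟨t, ht, rfl⟩; exact h t ht)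

/-- `SS j / (2 j)` -/
noncomputable def tau (φ : ℝ → ℝ) (j : ℕ) : ℝ := SS φ (j + 1) / (2 * ((j : ℝ) + 1))

lemma tau_mono (hc : ConvexOn ℝ (Ici 0) φ) (h0 : ∀ t, 0 ≤ t → 0 ≤ φ t)
    (hdiv : ∫⁻ x in Ioi (1 : ℝ), ENNReal.ofReal (φ (Real.log x) / x ^ 2) = ∞) :
    Monotone (tau φ) := by
  refine monotone_nat_of_le_succ fun j => ?_
  unfold tau
  rw [div_le_iff₀ (by positivity)]
  refine SS_le fun t ht => ?_
  have h1 := le_SS hc h0 hdiv (j + 1 + 1) ht
  have h2 := h0 t ht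
  push_cast at h1 ⊢
  have h3 : (2 * ((j : ℝ) + 1 + 1) * t - φ t / 2) / (2 * ((j : ℝ) + 1 + 1)) * (2 * ((j : ℝ) + 1)) ≤
      SS φ (j + 1 + 1) / (2 * ((j : ℝ) + 1 + 1)) * (2 * ((j : ℝ) + 1)) := by gcongr
  refine le_trans ?_ h3
  rw [div_mul_eq_mul_div, le_div_iff₀ (by positivity)]
  nlinarith [mul_nonneg h2 (Nat.cast_nonneg (α := ℝ) j)]

/-- `φ` is at most a sum over the even numbers -/
lemma phi_le (hc : ConvexOn ℝ (Ici 0) φ) (h0 : ∀ t, 0 ≤ t → 0 ≤ φ t)
    (hdiv : ∫⁻ x in Ioi (1 : ℝ), ENNReal.ofReal (φ (Real.log x) / x ^ 2) = ∞) {t : ℝ}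
    (ht : 0 < t) : ENNReal.ofReal (φ t / 2) ≤ ENNReal.ofReal (φ 0 / 2) + ENNReal.ofReal (2 * t) +
      2 * ∑' j : ℕ, ENNReal.ofReal (t - tau φ j) := by
  obtain ⟨q, hq⟩ := supp hc ht
  have hφ0 := h0 0 le_rfl
  rcases le_or_gt q 4 with hq0 | hq0
  · have h1 := hq 0 le_rfl
    have h2 : φ t / 2 ≤ φ 0 / 2 + 2 * t := by nlinarith
    calc ENNReal.ofReal (φ t / 2) ≤ ENNReal.ofReal (φ 0 / 2 + 2 * t) := ENNReal.ofReal_le_ofReal h2
      _ = ENNReal.ofReal (φ 0 / 2) + ENNReal.ofReal (2 * t) :=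
          ENNReal.ofReal_add (by positivity) (by positivity)
      _ ≤ _ := le_self_add
  · -- `q / 2 ∈ [2 j, 2 j + 2)`, `j ≥ 1`
    set j : ℕ := ⌊q / 4⌋₊ with hj
    have hj1 : (j : ℝ) ≤ q / 4 := Nat.floor_le (by positivity)
    have hj2 : q / 4 < j + 1 := Nat.lt_floor_add_one _
    have hj0 : 1 ≤ j := Nat.le_floor (by push_cast; linarith)
    obtain ⟨i, hi⟩ : ∃ i, j = i + 1 := ⟨j - 1, by omega⟩
    have hS : SS φ j ≤ q / 2 * t - φ t / 2 := by
      refine SS_le fun s hs => ?_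
      have h1 := hq s hs
      nlinarith
    have h1 : φ t / 2 ≤ 2 * t + (2 * j * t - SS φ j) := by nlinarith
    have h2 : 2 * j * t - SS φ j = 2 * (j * (t - tau φ i)) := by
      unfold tau
      rw [hi]
      push_cast
      field_simp
    have h3 : ENNReal.ofReal (j * (t - tau φ i)) ≤ ∑' j : ℕ, ENNReal.ofReal (t - tau φ j) := by
      calc ENNReal.ofReal (j * (t - tau φ i)) = ∑ k ∈ Finset.range j, ENNReal.ofReal (t - tau φ i) := by
            rw [Finset.sum_const, Finset.card_range, nsmul_eq_mul,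
              ENNReal.ofReal_mul (Nat.cast_nonneg j), ENNReal.ofReal_natCast]
        _ ≤ ∑ k ∈ Finset.range j, ENNReal.ofReal (t - tau φ k) := by
            refine Finset.sum_le_sum fun k hk => ENNReal.ofReal_le_ofReal ?_
            have : k ≤ i := by
              have := Finset.mem_range.1 hk
              omega
            have := tau_mono hc h0 hdiv this
            linarith
        _ ≤ _ := ENNReal.sum_le_tsum _
    calc ENNReal.ofReal (φ t / 2) ≤ ENNReal.ofReal (2 * t + 2 * (j * (t - tau φ i))) :=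
          ENNReal.ofReal_le_ofReal (by rw [← h2]; exact h1)
      _ ≤ ENNReal.ofReal (2 * t) + ENNReal.ofReal (2 * (j * (t - tau φ i))) :=
          ENNReal.ofReal_add_le
      _ = ENNReal.ofReal (2 * t) + 2 * ENNReal.ofReal (j * (t - tau φ i)) := by
          rw [ENNReal.ofReal_mul (by norm_num : (0 : ℝ) ≤ 2)]
          norm_num
      _ ≤ ENNReal.ofReal (2 * t) + 2 * ∑' j : ℕ, ENNReal.ofReal (t - tau φ j) := by gcongr
      _ ≤ _ := by
          rw [add_assoc]
          exact le_add_self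

/-- the series diverges -/
lemma tau_sum (hc : ConvexOn ℝ (Ici 0) φ) (h0 : ∀ t, 0 ≤ t → 0 ≤ φ t)
    (hdiv : ∫⁻ x in Ioi (1 : ℝ), ENNReal.ofReal (φ (Real.log x) / x ^ 2) = ∞) :
    ∑' j : ℕ, ENNReal.ofReal (Real.exp (-(tau φ j))) = ∞ := by
  by_contra hne
  have hφ0 := h0 0 le_rfl
  have h1 : ∫⁻ x in Ioi (1 : ℝ), ENNReal.ofReal (φ (Real.log x) / x ^ 2) ≤
      2 * ((∫⁻ x in Ioi (1 : ℝ), ENNReal.ofReal (φ 0 / 2 / x ^ 2)) +
        (2 * ∫⁻ x in Ioi (1 : ℝ), ENNReal.ofReal ((Real.log x - 0) / x ^ 2)) +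
        2 * ∑' j : ℕ, ∫⁻ x in Ioi (1 : ℝ), ENNReal.ofReal ((Real.log x - tau φ j) / x ^ 2)) := by
    rw [← lintegral_tsum (fun j => by fun_prop), ← lintegral_const_mul' _ _ (by norm_num),
      ← lintegral_const_mul' _ _ (by norm_num), ← lintegral_add_left (by fun_prop),
      ← lintegral_add_left (by fun_prop), ← lintegral_const_mul' _ _ (by norm_num)]
    refine setLIntegral_mono' measurableSet_Ioi fun x hx => ?_
    have hx1 : (1 : ℝ) < x := hx
    have hx0 : 0 < x := lt_trans one_pos hx1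
    have hl : 0 < Real.log x := Real.log_pos hx1
    have h2 := phi_le hc h0 hdiv hl
    set r : ℝ≥0∞ := ENNReal.ofReal (1 / x ^ 2) with hr
    have hdv : ∀ a : ℝ, ENNReal.ofReal (a / x ^ 2) = ENNReal.ofReal a * r := by
      intro a
      rw [hr, ← ENNReal.ofReal_mul' (by positivity), mul_one_div]
    simp_rw [hdv]
    rw [ENNReal.tsum_mul_right, sub_zero]
    have h3 : ENNReal.ofReal (φ (Real.log x)) = 2 * ENNReal.ofReal (φ (Real.log x) / 2) := by
      rw [show (2 : ℝ≥0∞) = ENNReal.ofReal 2 by norm_num, ← ENNReal.ofReal_mul (by norm_num)]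
      congr 1
      ring
    have h4 : ENNReal.ofReal (2 * Real.log x) = 2 * ENNReal.ofReal (Real.log x) := by
      rw [ENNReal.ofReal_mul (by norm_num)]
      norm_num
    rw [h4] at h2
    rw [h3]
    calc 2 * ENNReal.ofReal (φ (Real.log x) / 2) * r ≤
        2 * (ENNReal.ofReal (φ 0 / 2) + 2 * ENNReal.ofReal (Real.log x) +
          2 * ∑' j : ℕ, ENNReal.ofReal (Real.log x - tau φ j)) * r := by gcongr
      _ = _ := by ring
  rw [hdiv, top_le_iff] at h1
  refine ENNReal.mul_ne_top (by norm_num) (ENNReal.add_ne_top.2 ⟨ENNReal.add_ne_top.2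
    ⟨const_int, ENNReal.mul_ne_top (by norm_num)
      (ne_top_of_le_ne_top ENNReal.ofReal_ne_top (log_int 0))⟩, ?_⟩) h1
  refine ENNReal.mul_ne_top (by norm_num) ?_
  have h2 : ∑' j : ℕ, ∫⁻ x in Ioi (1 : ℝ), ENNReal.ofReal ((Real.log x - tau φ j) / x ^ 2) ≤
      4 * ∑' j : ℕ, ENNReal.ofReal (Real.exp (-(tau φ j))) := by
    rw [← ENNReal.tsum_mul_left]
    refine ENNReal.tsum_le_tsum fun j => (log_int (tau φ j)).trans (le_of_eq ?_)
    rw [ENNReal.ofReal_mul (by norm_num)]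
    norm_num
  exact ne_top_of_le_ne_top (ENNReal.mul_ne_top (by norm_num) hne) h2

end Conv

/-- **Carleman's condition from the logarithmic integral** -/
theorem carl_of_log {w : ℝ → ℝ} {K : ℝ} (hK : 0 ≤ K) (hw0 : ∀ x, 1 ≤ x → 0 ≤ w x)
    (hcv : ConvexOn ℝ (Ici 0) fun t => w (Real.exp t))
    (hdiv : ∫⁻ x in Ioi (1 : ℝ), ENNReal.ofReal (w x / x ^ 2) = ∞) :
    Carl 1 fun x => K * Real.exp (-(w x)) := by
  set φ : ℝ → ℝ := fun t => w (Real.exp t) with hφ
  have h0 : ∀ t, 0 ≤ t → 0 ≤ φ t := fun t ht => hw0 _ (Real.one_le_exp ht)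
  have hφw : ∀ x : ℝ, 1 < x → φ (Real.log x) = w x := fun x hx => by
    simp only [hφ]
    rw [Real.exp_log (by linarith)]
  have hd : ∫⁻ x in Ioi (1 : ℝ), ENNReal.ofReal (φ (Real.log x) / x ^ 2) = ∞ := by
    rw [← hdiv]
    refine setLIntegral_congr_fun measurableSet_Ioi fun x hx => ?_
    rw [hφw x hx]
  obtain ⟨t0, ht0, hs⟩ := superlin hcv h0 hd (c := 4) (by norm_num)
  -- the moments
  have hm : ∀ k : ℕ, ∫⁻ x in Ioi (1 : ℝ), ENNReal.ofReal (x ^ (2 * (k + 1)) *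
      (K * Real.exp (-(w x)))) ≤ (ENNReal.ofReal (1 + K * Real.exp (2 * t0))) ^ (2 * (k + 1)) *
        max 1 (ENNReal.ofReal (Real.exp (SS φ (k + 1)))) := by
    intro k
    set S : ℝ := SS φ (k + 1) with hS
    have h1 : ∀ x ∈ Ioi (1 : ℝ), ENNReal.ofReal (x ^ (2 * (k + 1)) * (K * Real.exp (-(w x)))) ≤
        ENNReal.ofReal (K * Real.exp (2 * t0) * Real.exp S * x ^ (-2 : ℝ)) := by
      intro x hx
      have hx1 : (1 : ℝ) < x := hx
      have hx0 : 0 < x := lt_trans one_pos hx1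
      have hl : 0 < Real.log x := Real.log_pos hx1
      refine ENNReal.ofReal_le_ofReal ?_
      have e1 := le_SS hcv h0 hd (k + 1) hl.le
      have e2 := hs _ hl.le
      have e3 : x ^ (2 * (k + 1)) = Real.exp (2 * ((k + 1 : ℕ) : ℝ) * Real.log x) := by
        rw [mul_comm (2 * ((k + 1 : ℕ) : ℝ)), Real.exp_mul, Real.exp_log hx0, ← Real.rpow_natCast]
        push_cast
        rfl
      have e4 : x ^ (-2 : ℝ) = Real.exp (-2 * Real.log x) := by
        rw [mul_comm, Real.exp_mul, Real.exp_log hx0]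
      rw [e3, e4, ← hφw x hx1]
      calc Real.exp (2 * ((k + 1 : ℕ) : ℝ) * Real.log x) * (K * Real.exp (-(φ (Real.log x)))) =
          K * (Real.exp (2 * ((k + 1 : ℕ) : ℝ) * Real.log x) * Real.exp (-(φ (Real.log x)))) := by
            ring
        _ = K * Real.exp (2 * ((k + 1 : ℕ) : ℝ) * Real.log x + -(φ (Real.log x))) := by
            rw [Real.exp_add]
        _ ≤ K * Real.exp (2 * t0 + S + -2 * Real.log x) := by
            refine mul_le_mul_of_nonneg_left (Real.exp_le_exp.2 ?_) hK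
            linarith
        _ = _ := by rw [Real.exp_add, Real.exp_add]; ring
    have hI := integrableOn_Ioi_rpow_of_lt (show (-2 : ℝ) < -1 by norm_num) one_pos
    have h2 : ∫⁻ x in Ioi (1 : ℝ), ENNReal.ofReal (x ^ (2 * (k + 1)) * (K * Real.exp (-(w x)))) ≤
        ENNReal.ofReal (K * Real.exp (2 * t0) * Real.exp S) := by
      calc _ ≤ ∫⁻ x in Ioi (1 : ℝ),
            ENNReal.ofReal (K * Real.exp (2 * t0) * Real.exp S * x ^ (-2 : ℝ)) :=
            setLIntegral_mono' measurableSet_Ioi h1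
        _ = ENNReal.ofReal (∫ x in Ioi (1 : ℝ),
            K * Real.exp (2 * t0) * Real.exp S * x ^ (-2 : ℝ)) := by
            rw [ofReal_integral_eq_lintegral_ofReal (hI.const_mul _)]
            rw [EventuallyLE, ae_restrict_iff' measurableSet_Ioi]
            refine ae_of_all _ fun x hx => ?_
            have : (0 : ℝ) < x := lt_trans one_pos hx
            simp only [Pi.zero_apply]
            positivity
        _ = _ := by
            congr 1
            rw [integral_const_mul, integral_Ioi_rpow_of_lt (by norm_num) one_pos]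
            norm_num
    refine h2.trans ?_
    rw [ENNReal.ofReal_mul (by positivity)]
    refine mul_le_mul' ?_ (le_max_right _ _)
    rw [← ENNReal.ofReal_pow (by positivity)]
    refine ENNReal.ofReal_le_ofReal ?_
    have e1 : 0 ≤ K * Real.exp (2 * t0) := by positivity
    calc K * Real.exp (2 * t0) ≤ 1 + K * Real.exp (2 * t0) := by linarith
      _ ≤ _ := le_self_pow₀ (by linarith) (by omega)
  refine CS.mono (C := ENNReal.ofReal (1 + K * Real.exp (2 * t0))) ENNReal.ofReal_ne_top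
    (m := fun k => ENNReal.ofReal (Real.exp (SS φ (k + 1)))) (fun ⟨k, hk⟩ => ?_) hm ?_
  · exfalso
    rw [ENNReal.ofReal_eq_zero] at hk
    linarith [Real.exp_pos (SS φ (k + 1))]
  · unfold CS
    rw [← top_le_iff, ← tau_sum hcv h0 hd]
    refine ENNReal.tsum_le_tsum fun k => le_of_eq ?_
    rw [ENNReal.ofReal_rpow_of_pos (Real.exp_pos _), ← Real.exp_mul]
    congr 2
    unfold tau
    ring

end Pool.Agent.U667.QA
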