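import Pool.Agent.U667.QA.PattC
import Pool.Agent.U667.QA.LogInt

set_option autoImplicit false

/-!
# The theorems along sequences of heights
-/

namespace Pool.Agent.U667.QA

open Set Filter Topology MeasureTheory
open scoped ENNReal
open Pool.Agent.N804

/-- almost every point of a set can be approximated from the right by points of the set at which a
given function is not much larger -/
lemma right_app (S : Set ℝ) (E : ℝ → ℝ) : ∀ᵐ x : ℝ, x ∈ S → ∀ c, E x < c → ∀ δ : ℝ, 0 < δ →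
    ∃ y ∈ S, x < y ∧ y < x + δ ∧ E y < c := by
  have h1 : ∀ᵐ x : ℝ, ∀ q : ℚ, ¬ (x ∈ {y | y ∈ S ∧ E y < q} ∧
      𝓝[{y | y ∈ S ∧ E y < q} ∩ Ioi x] x = ⊥) := by
    rw [ae_all_iff]
    intro q
    have h2 := (countable_setOfPred_isolated_right_within (s := {y : ℝ | y ∈ S ∧ E y < q}))
    have h3 := h2.ae_notMem (volume : Measure ℝ)
    filter_upwards [h3] with x hx hx2
    exact hx hx2
  filter_upwards [h1] with x hx hxS c hc δ hδ
  obtain ⟨q, hq1, hq2⟩ := exists_rat_btwn hc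
  have h2 : 𝓝[{y | y ∈ S ∧ E y < q} ∩ Ioi x] x ≠ ⊥ := fun h => hx q ⟨⟨hxS, hq1⟩, h⟩
  have h3 : (𝓝[{y | y ∈ S ∧ E y < q} ∩ Ioi x] x).NeBot := ⟨h2⟩
  have h4 : ∀ᶠ y in 𝓝[{y | y ∈ S ∧ E y < q} ∩ Ioi x] x, y < x + δ :=
    mem_nhdsWithin_of_mem_nhds (Iio_mem_nhds (by linarith))
  obtain ⟨y, hy1, hy2⟩ := (h4.and self_mem_nhdsWithin).exists
  exact ⟨y, hy2.1.1, hy2.2, hy1, hy2.1.2.trans hq2⟩

/-- an upper bound for the counts at a point to the right -/
lemma upp_limC {T : ℕ → ℝ} (hT : Tendsto T atTop atTop) {Φ : ℝ → ℝ} {x y : ℝ} (hx : 0 < x)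
    (hxy : x < y) (hc : Tendsto (fun k => ct (T k) x) atTop (𝓝 (Φ x))) {m : ℝ}
    (h : ∀ ε : ℝ, 0 < ε → ∀ᶠ k in atTop, CF (T k) y ≤ m + ε) : Φ x ≤ m := by
  refine le_of_forall_pos_le_add fun ε hε => ?_
  have hy0 : 0 < y := hx.trans hxy
  set η : ℝ := (y - x) / y with hη
  have hη0 : 0 < η := div_pos (by linarith) hy0
  have hη1 : η < 1 := by
    rw [hη, div_lt_one hy0]
    linarith
  have hxy' : (1 - η) * y = x := by
    rw [hη]
    field_simp
    ring
  obtain ⟨T1, hT1, hge⟩ := CF_ge hy0.le hη0 hη1 (ε := ε / 2) (by positivity)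
  refine le_of_tendsto hc ?_
  filter_upwards [hT.eventually_ge_atTop T1, h (ε / 2) (by positivity)] with k hk h2
  have h3 := hge (T k) hk
  rw [hxy'] at h3
  linarith

/-- lower half at large distances, with an error in the Carleman class -/
theorem lower_halfC {l : Filter ℝ} [l.IsCountablyGenerated] (hl : l ≤ atTop) {A0 R : ℝ} {E : ℝ → ℝ}
    (hE : Measurable E) (hE0 : ∀ x, 0 ≤ E x) (hC : Carl A0 E)
    (h : ∀ᵐ a, R ≤ a → ∀ ε : ℝ, 0 < ε → ∀ᶠ T in l, PP a - E a - ε ≤ CF T a) :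
    (∀ a, 0 < a → Tendsto (fun T => CF T a) l (𝓝 (PP a))) ∧ Tendsto BF l (𝓝 0) := by
  refine of_limits' hl fun T hT Φ μ ν e H h1 _ _ _ => ?_
  refine limAC H hE hE0 hC (R := max R 1) ?_
  filter_upwards [h1, h] with x hx hx2 hRx
  have hR1 : R ≤ x := (le_max_left _ _).trans hRx
  have hx0 : 0 < x := lt_of_lt_of_le one_pos ((le_max_right _ _).trans hRx)
  exact low_lim (hT.mono_right hl) hx0 hx (m := PP x - E x)
    fun ε hε => hT.eventually (hx2 hR1 ε hε)

/-- one of the two halves at each large distance, chosen by a sign pattern -/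
theorem pattern_halfC {l : Filter ℝ} [l.IsCountablyGenerated] (hl : l ≤ atTop) {Λ : Set ℝ}
    {d C : ℝ} (hd : d < 4 / 3) (hΛ : Dens Λ d C) {A0 R : ℝ} {E : ℝ → ℝ}
    (hE : Measurable E) (hE0 : ∀ x, 0 ≤ E x) (hC : Carl A0 E) (hB : Tendsto BF l (𝓝 0))
    (h : ∀ᵐ a, R ≤ a → ∀ ε : ℝ, 0 < ε → ∀ᶠ T in l,
      -E a - ε ≤ (-1) ^ cn Λ a * (CF T a - PP a)) :
    (∀ a, 0 < a → Tendsto (fun T => CF T a) l (𝓝 (PP a))) ∧ Tendsto BF l (𝓝 0) := by
  refine of_limits' hl fun T hTl Φ μ ν e H h1 _ h3 _ => ?_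
  have hT : Tendsto T atTop atTop := hTl.mono_right hl
  have hν : ν = 0 := tendsto_nhds_unique h3 ((vt_of_BF' hl hB).comp hTl)
  have hμ := H.mu2 hν
  have he : e = 0 := by linarith [H.mu, H.e0, H.e1]
  set S : Set ℝ := {a | R ≤ a → ∀ ε : ℝ, 0 < ε → ∀ᶠ T in l,
      -E a - ε ≤ (-1) ^ cn Λ a * (CF T a - PP a)} with hS
  have hSae : ∀ᵐ a, a ∈ S := h
  refine finish H (limPC H he hd hΛ hE hE0 hC (R := max R 1) ?_)
  filter_upwards [h1, hSae, right_app S E] with x hx hxS happ hRx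
  have hR1 : R ≤ x := (le_max_left _ _).trans hRx
  have hx0 : 0 < x := lt_of_lt_of_le one_pos ((le_max_right _ _).trans hRx)
  have hG : Gd Φ μ x = Φ x - PP x := by
    unfold Gd
    rw [hμ]
    ring
  rw [hG]
  rcases neg_one_pow_eq_or ℝ (cn Λ x) with hs | hs
  · rw [hs, one_mul]
    have h2 := low_lim hT hx0 hx (m := PP x - E x) (fun ε hε => by
      filter_upwards [hTl.eventually (hxS hR1 ε hε)] with k hk
      rw [hs, one_mul] at hk
      linarith)
    linarith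
  · rw [hs]
    obtain ⟨ρ, hρ, hcn⟩ := cn_right hΛ hx0
    have h2 : Φ x ≤ PP x + E x := by
      refine le_of_forall_pos_le_add fun ε hε => ?_
      obtain ⟨y, hyS, hxy, hyx, hEy⟩ := happ hxS (E x + ε / 2) (by linarith)
        (min ρ (ε / 2)) (lt_min hρ (by positivity))
      have a1 : min ρ (ε / 2) ≤ ρ := min_le_left _ _
      have a2 : min ρ (ε / 2) ≤ ε / 2 := min_le_right _ _
      have h4 := PP_lip hxy.le
      have h5 := upp_limC hT hx0 hxy hx (m := PP y + E y) (fun ε' hε' => by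
        filter_upwards [hTl.eventually (hyS (hR1.trans hxy.le) ε' hε')] with k h6
        rw [hcn y hxy.le (by linarith), hs] at h6
        linarith)
      linarith
    linarith

end Pool.Agent.U667.QA
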