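import Pool.Agent.U667.QA.UniqC

set_option autoImplicit false

/-!
# The version on the half-line
-/

namespace Pool.Agent.U667.QA

open Set Filter Topology MeasureTheory
open scoped ENNReal

/-- Carleman's condition for the even moments of `E` on `(A, ∞)` -/
def Carl (A : ℝ) (E : ℝ → ℝ) : Prop :=
  CS fun k => ∫⁻ x in Ioi A, ENNReal.ofReal (x ^ (2 * (k + 1)) * E x)

lemma mom_zero {A : ℝ} (hA : 0 ≤ A) {E : ℝ → ℝ} (hE : Measurable E)
    (h : ∃ k : ℕ, ∫⁻ x in Ioi A, ENNReal.ofReal (x ^ (2 * (k + 1)) * E x) = 0) (k : ℕ) :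
    ∫⁻ x in Ioi A, ENNReal.ofReal (x ^ (2 * (k + 1)) * E x) = 0 := by
  obtain ⟨j, hj⟩ := h
  rw [lintegral_eq_zero_iff (by fun_prop)] at hj ⊢
  rw [EventuallyEq, ae_restrict_iff' measurableSet_Ioi] at hj ⊢
  filter_upwards [hj] with x hx hxA
  have h1 := hx hxA
  simp only [Pi.zero_apply, ENNReal.ofReal_eq_zero] at h1 ⊢
  have hx0 : 0 < x := lt_of_le_of_lt hA hxA
  have h2 : E x ≤ 0 := by
    by_contra h3
    push Not at h3
    have : 0 < x ^ (2 * (j + 1)) * E x := by positivity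
    linarith
  exact mul_nonpos_of_nonneg_of_nonpos (by positivity) h2

/-- changes of `E` by a factor and on a bounded interval -/
lemma Carl.ext {A : ℝ} {E : ℝ → ℝ} (hE : Measurable E) (hC : Carl A E) {a c R : ℝ}
    (ha : 0 ≤ a) (hc : 0 ≤ c) (hR : 0 ≤ R) (hAR : A ≤ R) :
    Carl 0 fun x => if x ≤ R then a else c * E x := by
  rcases le_or_gt 0 A with hA | hA
  swap
  · -- replace `A` by `0`: the moments only decrease
    have h0 : Carl 0 E := by
      by_cases hz : ∃ k : ℕ, ∫⁻ x in Ioi (0 : ℝ), ENNReal.ofReal (x ^ (2 * (k + 1)) * E x) = 0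
      · unfold Carl CS
        have h1 := mom_zero le_rfl hE hz
        simp only [h1]
        have h2 : ∀ k : ℕ, (0 : ℝ≥0∞) ^ (-(1 / (2 * ((k : ℝ) + 1)))) = ∞ := fun k =>
          ENNReal.zero_rpow_of_neg (by
            have : 0 < 1 / (2 * ((k : ℝ) + 1)) := by positivity
            linarith)
        rw [tsum_congr h2]
        exact ENNReal.tsum_const_eq_top_of_ne_zero ENNReal.top_ne_zero
      · unfold Carl CS at hC ⊢
        refine top_le_iff.1 (le_trans hC.ge (ENNReal.tsum_le_tsum fun k => ?_))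
        rw [ENNReal.rpow_neg, ENNReal.rpow_neg]
        refine ENNReal.inv_le_inv.2 (ENNReal.rpow_le_rpow ?_ (by positivity))
        exact lintegral_mono_set (Ioi_subset_Ioi hA.le)
    -- the rest is as in the other case
    refine CS.mono (C := ENNReal.ofReal ((1 + R) * (1 + a * R + c))) ENNReal.ofReal_ne_top
      (mom_zero le_rfl hE) (fun k => ?_) h0
    exact bound_aux E ha hc hR (le_refl 0) hR k
  · refine CS.mono (C := ENNReal.ofReal ((1 + R) * (1 + a * R + c))) ENNReal.ofReal_ne_top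
      (mom_zero hA hE) (fun k => ?_) hC
    exact bound_aux E ha hc hR hA hAR k
where
  /-- the bound of the moments -/
  bound_aux (E : ℝ → ℝ) {a c R A : ℝ} (ha : 0 ≤ a) (hc : 0 ≤ c) (hR : 0 ≤ R) (hA : 0 ≤ A)
      (hAR : A ≤ R) (k : ℕ) :
      ∫⁻ x in Ioi (0 : ℝ), ENNReal.ofReal (x ^ (2 * (k + 1)) * (if x ≤ R then a else c * E x)) ≤
        ENNReal.ofReal ((1 + R) * (1 + a * R + c)) ^ (2 * (k + 1)) *
          max 1 (∫⁻ x in Ioi A, ENNReal.ofReal (x ^ (2 * (k + 1)) * E x)) := by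
    set m : ℝ≥0∞ := ∫⁻ x in Ioi A, ENNReal.ofReal (x ^ (2 * (k + 1)) * E x) with hm
    have hsplit : Ioi (0 : ℝ) = Ioc 0 R ∪ Ioi R := (Ioc_union_Ioi_eq_Ioi hR).symm
    have h1 : ∫⁻ x in Ioc (0 : ℝ) R,
        ENNReal.ofReal (x ^ (2 * (k + 1)) * (if x ≤ R then a else c * E x)) ≤
        ENNReal.ofReal (R ^ (2 * (k + 1)) * a * R) := by
      calc _ ≤ ∫⁻ x in Ioc (0 : ℝ) R, ENNReal.ofReal (R ^ (2 * (k + 1)) * a) := by
            refine setLIntegral_mono' measurableSet_Ioc fun x hx => ?_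
            rw [if_pos hx.2]
            have := hx.1.le
            have := hx.2
            gcongr
        _ = _ := by
            rw [setLIntegral_const, Real.volume_Ioc, sub_zero, ← ENNReal.ofReal_mul (by positivity)]
    have h2 : ∫⁻ x in Ioi R,
        ENNReal.ofReal (x ^ (2 * (k + 1)) * (if x ≤ R then a else c * E x)) ≤
        ENNReal.ofReal c * m := by
      calc _ ≤ ∫⁻ x in Ioi R, ENNReal.ofReal c * ENNReal.ofReal (x ^ (2 * (k + 1)) * E x) := by
            refine setLIntegral_mono' measurableSet_Ioi fun x hx => ?_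
            rw [if_neg (not_le.2 hx), ← ENNReal.ofReal_mul hc]
            refine ENNReal.ofReal_le_ofReal (le_of_eq ?_)
            ring
        _ = ENNReal.ofReal c * ∫⁻ x in Ioi R, ENNReal.ofReal (x ^ (2 * (k + 1)) * E x) :=
            lintegral_const_mul' _ _ ENNReal.ofReal_ne_top
        _ ≤ _ := by
            gcongr
            exact lintegral_mono_set (Ioi_subset_Ioi hAR)
    have h3 : ∫⁻ x in Ioi (0 : ℝ),
        ENNReal.ofReal (x ^ (2 * (k + 1)) * (if x ≤ R then a else c * E x)) ≤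
        ENNReal.ofReal (R ^ (2 * (k + 1)) * a * R) + ENNReal.ofReal c * m := by
      rw [hsplit]
      exact (lintegral_union_le _ _ _).trans (add_le_add h1 h2)
    refine h3.trans ?_
    calc ENNReal.ofReal (R ^ (2 * (k + 1)) * a * R) + ENNReal.ofReal c * m ≤
        ENNReal.ofReal (R ^ (2 * (k + 1)) * a * R) * max 1 m + ENNReal.ofReal c * max 1 m := by
          gcongr
          · calc ENNReal.ofReal (R ^ (2 * (k + 1)) * a * R) =
                ENNReal.ofReal (R ^ (2 * (k + 1)) * a * R) * 1 := (mul_one _).symm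
              _ ≤ _ := by gcongr; exact le_max_left _ _
          · exact le_max_right _ _
      _ = ENNReal.ofReal (R ^ (2 * (k + 1)) * a * R + c) * max 1 m := by
          rw [← add_mul, ENNReal.ofReal_add (by positivity) hc]
      _ ≤ _ := by
          gcongr
          rw [← ENNReal.ofReal_pow (by positivity)]
          refine ENNReal.ofReal_le_ofReal ?_
          rw [mul_pow]
          have e1 : R ^ (2 * (k + 1)) ≤ (1 + R) ^ (2 * (k + 1)) := by gcongr; linarith
          have e2 : (1 : ℝ) ≤ (1 + R) ^ (2 * (k + 1)) := one_le_pow₀ (by linarith)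
          have e3 : 1 + a * R + c ≤ (1 + a * R + c) ^ (2 * (k + 1)) :=
            le_self_pow₀ (by nlinarith [mul_nonneg ha hR]) (by omega)
          have e4 : 0 ≤ a * R := mul_nonneg ha hR
          calc R ^ (2 * (k + 1)) * a * R + c ≤ (1 + R) ^ (2 * (k + 1)) * (a * R) +
                (1 + R) ^ (2 * (k + 1)) * c := by nlinarith
            _ ≤ (1 + R) ^ (2 * (k + 1)) * (1 + a * R + c) := by nlinarith
            _ ≤ _ := by gcongr

/-- the version on the half-line -/
theorem uniqHC {u : ℝ → ℝ} (hu : Measurable u)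
    (hdec : ∀ n : ℕ, ∃ A : ℝ, ∀ᵐ x : ℝ, 0 < x → x ^ n * |u x| ≤ A)
    (hm : ∀ n : ℕ, ∫ x in Ioi (0 : ℝ), x ^ (2 * n) * u x = 0) {E : ℝ → ℝ} (hE : Measurable E)
    (hC : Carl 0 E) (hneg : ∀ᵐ x : ℝ, 0 < x → -E x ≤ u x) : ∀ᵐ x, 0 < x → u x = 0 := by
  set U : ℝ → ℝ := fun x => u |x| with hU
  have hUm : Measurable U := hu.comp (by fun_prop)
  have hUe : ∀ x, U (-x) = U x := fun x => by simp [hU]
  have hne : ∀ᵐ x : ℝ, x ≠ 0 := by
    rw [ae_iff]
    simp
  -- transfer of almost everywhere statements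
  have htr : ∀ {p : ℝ → Prop}, (∀ᵐ x : ℝ, 0 < x → p x) → ∀ᵐ x : ℝ, p |x| := by
    intro p hp
    have h1 : ∀ᵐ x : ℝ, 0 < -x → p (-x) := by
      have := (Measure.measurePreserving_neg (volume : Measure ℝ)).quasiMeasurePreserving.ae hp
      exact this
    filter_upwards [hp, h1, hne] with x h2 h3 h4
    rcases lt_or_gt_of_ne h4 with h | h
    · rw [abs_of_neg h]
      exact h3 (by linarith)
    · rw [abs_of_pos h]
      exact h2 h
  have hint : ∀ n : ℕ, Integrable fun x : ℝ => x ^ n * U x := by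
    intro n
    obtain ⟨A1, hA1⟩ := hdec n
    obtain ⟨A2, hA2⟩ := hdec (n + 2)
    refine Integrable.mono' (integrable_inv_one_add_sq.const_mul (A1 + A2))
      ((measurable_id.pow_const n).mul hUm).aestronglyMeasurable ?_
    filter_upwards [htr hA1, htr hA2] with x h1 h2
    rw [Real.norm_eq_abs, abs_mul, abs_pow, ← div_eq_mul_inv, le_div_iff₀ (by positivity)]
    have hx2 : x ^ 2 = |x| ^ 2 := (sq_abs x).symm
    rw [hx2]
    simp only [hU]
    calc |x| ^ n * |(u (|x|))| * (1 + |x| ^ 2) =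
          |x| ^ n * |(u (|x|))| + |x| ^ (n + 2) * |(u (|x|))| := by ring
      _ ≤ _ := add_le_add h1 h2
  have hz : ∀ n : ℕ, ∫ x : ℝ, x ^ (2 * n) * U x = 0 := by
    intro n
    have e : ∀ x : ℝ, x ^ (2 * n) * U x = (fun y : ℝ => y ^ (2 * n) * u y) |x| := by
      intro x
      simp only [hU]
      have : x ^ (2 * n) = |x| ^ (2 * n) := by rw [pow_mul, pow_mul, sq_abs]
      rw [this]
    rw [integral_congr_ae (ae_of_all _ e),
      integral_comp_abs (f := fun y : ℝ => y ^ (2 * n) * u y), hm n, mul_zero]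
  -- the moments of the negative part
  have hmom : ∀ k : ℕ, ∫⁻ x : ℝ, ENNReal.ofReal (-(x ^ (2 * (k + 1)) * U x)) ≤
      (2 : ℝ≥0∞) ^ (2 * (k + 1)) *
        max 1 (∫⁻ x in Ioi (0 : ℝ), ENNReal.ofReal (x ^ (2 * (k + 1)) * E x)) := by
    intro k
    set f : ℝ → ℝ≥0∞ := fun x => ENNReal.ofReal (|x| ^ (2 * (k + 1)) * E |x|) with hf
    have hfm : Measurable f := by
      have : Measurable fun x : ℝ => E |x| := hE.comp (by fun_prop)
      exact ((by fun_prop : Measurable fun x : ℝ => |x| ^ (2 * (k + 1))).mul this).ennreal_ofReal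
    have h1 : ∫⁻ x : ℝ, ENNReal.ofReal (-(x ^ (2 * (k + 1)) * U x)) ≤ ∫⁻ x : ℝ, f x := by
      refine lintegral_mono_ae ?_
      filter_upwards [htr hneg] with x hx
      refine ENNReal.ofReal_le_ofReal ?_
      have : x ^ (2 * (k + 1)) = |x| ^ (2 * (k + 1)) := by rw [pow_mul, pow_mul, sq_abs]
      rw [this, ← mul_neg]
      refine mul_le_mul_of_nonneg_left ?_ (by positivity)
      simp only [hU]
      linarith
    have h2 : ∫⁻ x in Ioi (0 : ℝ), f x =
        ∫⁻ x in Ioi (0 : ℝ), ENNReal.ofReal (x ^ (2 * (k + 1)) * E x) := by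
      refine setLIntegral_congr_fun measurableSet_Ioi fun x hx => ?_
      simp only [hf]
      rw [abs_of_pos hx]
    have h3 : ∫⁻ x in Iio (0 : ℝ), f x = ∫⁻ x in Ioi (0 : ℝ), f x := by
      have h4 := (Measure.measurePreserving_neg (volume : Measure ℝ)).setLIntegral_comp_preimage
        (s := Ioi (0 : ℝ)) measurableSet_Ioi hfm
      have h5 : (Neg.neg : ℝ → ℝ) ⁻¹' Ioi (0 : ℝ) = Iio 0 := by
        ext x
        simp
      rw [h5] at h4
      rw [← h4]
      refine lintegral_congr fun x => ?_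
      simp [hf]
    have h4 : ∫⁻ x : ℝ, f x ≤ 2 * ∫⁻ x in Ioi (0 : ℝ), f x := by
      have e1 : ∫⁻ x in Iic (0 : ℝ), f x = ∫⁻ x in Iio (0 : ℝ), f x :=
        setLIntegral_congr Iio_ae_eq_Iic.symm
      calc ∫⁻ x : ℝ, f x = ∫⁻ x in univ, f x := by rw [Measure.restrict_univ]
        _ = ∫⁻ x in Iic (0 : ℝ) ∪ Ioi 0, f x := by rw [Iic_union_Ioi]
        _ ≤ (∫⁻ x in Iic (0 : ℝ), f x) + ∫⁻ x in Ioi (0 : ℝ), f x := lintegral_union_le _ _ _
        _ = _ := by rw [e1, h3, two_mul]
    rw [h2] at h4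
    refine (h1.trans h4).trans ?_
    gcongr
    · exact le_self_pow₀ (by norm_num) (by omega)
    · exact le_max_right _ _
  have h := uniqVC hUm hUe hint hz
    (CS.mono (C := 2) (by norm_num) (mom_zero le_rfl hE) hmom hC)
  filter_upwards [h] with x hx hx0
  have : U x = 0 := hx
  simp only [hU, abs_of_pos hx0] at this
  exact this

end Pool.Agent.U667.QA
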