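import Pool.Agent.N804.Fil
import Pool.Agent.U667.QA.HalfC

set_option autoImplicit false

/-!
# One-sided conditions with an error in the Carleman class, and with a prescribed sign pattern
-/

namespace Pool.Agent.U667.QA

open Set Filter Topology MeasureTheory
open scoped ENNReal
open Pool.Agent.N804

/-- **one-sided bounds with a prescribed sign pattern**, for functions orthogonal to the weights
`x ^ (2 n + p)` with all modulations below `2/3` -/
theorem patt_uniqC {G : ℝ → ℝ} (hGm : Measurable G) {B : ℝ} (hB : 0 < B)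
    (hGB : ∀ x, 0 ≤ x → |G x| ≤ B * (1 + x)) (p : ℕ)
    (hAnn : ∀ (κ β : ℝ) (hκ : 0 < κ), κ + β < 2 / 3 → ∀ n : ℕ,
      Ann G β (fun x => x ^ (2 * n + p) * gw κ hκ x)) {Λ : Set ℝ} {d C : ℝ}
    (hd : d < 4 / 3) (hΛ : Dens Λ d C) {A0 R : ℝ} {E : ℝ → ℝ} (hE : Measurable E)
    (hE0 : ∀ x, 0 ≤ E x) (hC : Carl A0 E)
    (h : ∀ᵐ x, R ≤ x → -E x ≤ (-1) ^ cn Λ x * G x) :
    DZ G := by
  obtain ⟨κ, β, ℓ, m, W, hκ, hκβ, hℓ, hβ, hWm, hW1, hW2, s, hs, k, hkc, hk⟩ := multiplier hd hΛ
  set c1 : ℝ := max 1 (1 / ℓ) with hc1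
  have hc1a : 1 ≤ c1 := le_max_left _ _
  have hc1b : 1 / ℓ ≤ c1 := le_max_right _ _
  have hlin : ∀ x : ℝ, 0 ≤ x → (6 * (1 + x / ℓ)) ^ m ≤ (6 * c1) ^ m * (1 + x) ^ m := by
    intro x hx
    rw [← mul_pow]
    refine pow_le_pow_left₀ (by positivity) ?_ m
    have : x / ℓ ≤ c1 * x := by
      rw [div_eq_mul_one_div, mul_comm]
      exact mul_le_mul_of_nonneg_right hc1b hx
    nlinarith
  -- the function to which uniqueness is applied
  set u : ℝ → ℝ := fun x => x ^ p * gw κ hκ x * (W x * G x) with hu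
  have hum : Measurable u := by
    have := (gw_cont hκ).measurable
    exact ((measurable_id.pow_const p).mul this).mul (hWm.mul hGm)
  -- bounds
  have hub : ∀ n : ℕ, ∃ A : ℝ, 0 ≤ A ∧ ∀ x : ℝ, 0 ≤ x →
      x ^ n * (x ^ p * gw κ hκ x * ((6 * (1 + x / ℓ)) ^ m * (B * (1 + x)))) ≤ A := by
    intro n
    obtain ⟨A, hA0, hA⟩ := poly_gw hκ (m + 1) (n + p)
    refine ⟨(6 * c1) ^ m * B * A, by positivity, fun x hx => ?_⟩
    have h1 := hA x hx
    have h2 := hlin x hx
    have h3 := gw_nonneg hκ x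
    calc x ^ n * (x ^ p * gw κ hκ x * ((6 * (1 + x / ℓ)) ^ m * (B * (1 + x)))) ≤
        x ^ n * (x ^ p * gw κ hκ x * (((6 * c1) ^ m * (1 + x) ^ m) * (B * (1 + x)))) := by gcongr
      _ = (6 * c1) ^ m * B * (x ^ (n + p) * (1 + x) ^ (m + 1) * gw κ hκ x) := by ring
      _ ≤ _ := by gcongr
  have hGE : ∀ x : ℝ, 0 ≤ x → |u x| ≤ x ^ p * gw κ hκ x * (|W x| * (B * (1 + x))) := by
    intro x hx
    simp only [hu]
    rw [abs_mul, abs_mul, abs_mul, abs_of_nonneg (pow_nonneg hx p), abs_of_nonneg (gw_nonneg hκ x)]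
    have := hGB x hx
    have := gw_nonneg hκ x
    gcongr
  have hdec : ∀ n : ℕ, ∃ A : ℝ, ∀ᵐ x : ℝ, 0 < x → x ^ n * |u x| ≤ A := by
    intro n
    obtain ⟨A, hA0, hA⟩ := hub n
    refine ⟨A, ?_⟩
    filter_upwards [hW1] with x hx hx0
    refine le_trans ?_ (hA x hx0.le)
    have h1 := hGE x hx0.le
    have h2 := (hx hx0).2
    have h3 := gw_nonneg hκ x
    calc x ^ n * |u x| ≤ x ^ n * (x ^ p * gw κ hκ x * (|W x| * (B * (1 + x)))) := by gcongr
      _ ≤ _ := by gcongr
  -- moments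
  have hs2 : s * s = 1 := by rcases hs with hs | hs <;> rw [hs] <;> norm_num
  have hmom : ∀ n : ℕ, ∫ x in Ioi (0 : ℝ), x ^ (2 * n) * u x = 0 := by
    intro n
    have hz : ∀ j : ℕ, ∫ x in Ioi (0 : ℝ), x ^ (2 * n + p) * gw κ hκ x *
        (∏ i ∈ Finset.range m, EX (k j i) ℓ x) * G x = 0 := by
      intro j
      have := ((hAnn κ β hκ hκβ n).prod hGm hGB hℓ (k := k j) (hkc j) m).ann 0
        (by rw [abs_zero]; exact hβ)
      simpa using this
    obtain ⟨A0', hA0, hA0'⟩ := hub (2 * n)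
    obtain ⟨A2, hA2, hA2'⟩ := hub (2 * n + 2)
    have hlim : Tendsto (fun j : ℕ => ∫ x in Ioi (0 : ℝ), x ^ (2 * n + p) * gw κ hκ x *
        (∏ i ∈ Finset.range m, EX (k j i) ℓ x) * G x) atTop
        (𝓝 (∫ x in Ioi (0 : ℝ), s * (x ^ (2 * n) * u x))) := by
      refine tendsto_integral_of_dominated_convergence (fun x => (A0' + A2) * (1 + x ^ 2)⁻¹)
        (fun j => ?_) (integrable_inv_one_add_sq.const_mul _).integrableOn (fun j => ?_) ?_
      · have h1 := (gw_cont hκ).measurable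
        have h2 : Measurable fun x => ∏ i ∈ Finset.range m, EX (k j i) ℓ x :=
          Finset.measurable_prod _ fun i _ => (EX_cont (hkc j i) ℓ).measurable
        exact ((((measurable_id.pow_const _).mul h1).mul h2).mul hGm).aestronglyMeasurable
      · rw [ae_restrict_iff' measurableSet_Ioi]
        filter_upwards [hk] with x hx hx0
        have hx0' : 0 ≤ x := le_of_lt hx0
        obtain ⟨h1, -⟩ := hx hx0
        have h2 := h1 j
        have h3 := gw_nonneg hκ x
        have h4 := hGB x hx0'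
        have e0 := hA0' x hx0'
        have e2 := hA2' x hx0'
        rw [Real.norm_eq_abs, abs_mul, abs_mul, abs_mul, abs_of_nonneg (pow_nonneg hx0' _),
          abs_of_nonneg h3, ← div_eq_mul_inv, le_div_iff₀ (by positivity)]
        calc x ^ (2 * n + p) * gw κ hκ x * |∏ i ∈ Finset.range m, EX (k j i) ℓ x| * |G x| *
            (1 + x ^ 2) ≤ x ^ (2 * n + p) * gw κ hκ x * (6 * (1 + x / ℓ)) ^ m *
              (B * (1 + x)) * (1 + x ^ 2) := by gcongr
          _ = x ^ (2 * n) * (x ^ p * gw κ hκ x * ((6 * (1 + x / ℓ)) ^ m * (B * (1 + x)))) +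
              x ^ (2 * n + 2) * (x ^ p * gw κ hκ x * ((6 * (1 + x / ℓ)) ^ m * (B * (1 + x)))) := by
            ring
          _ ≤ _ := add_le_add e0 e2
      · rw [ae_restrict_iff' measurableSet_Ioi]
        filter_upwards [hk] with x hx hx0
        obtain ⟨-, ht⟩ := hx hx0
        have h1 := (ht.const_mul (x ^ (2 * n + p) * gw κ hκ x)).mul_const (G x)
        have e : x ^ (2 * n + p) * gw κ hκ x * (s * W x) * G x =
            s * (x ^ (2 * n) * u x) := by
          simp only [hu]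
          ring
        rw [e] at h1
        exact h1
    simp_rw [hz] at hlim
    have h1 := tendsto_nhds_unique hlim tendsto_const_nhds
    rw [integral_const_mul] at h1
    rcases mul_eq_zero.1 h1 with h2 | h2
    · rw [h2, mul_zero] at hs2
      norm_num at hs2
    · exact h2
  -- the lower bound
  obtain ⟨A, hA0, hA⟩ := hub 0
  obtain ⟨A', hA'0, hA'⟩ := poly_gw hκ m p
  set R' : ℝ := max (max (max R ℓ) 0) A0 with hR'
  set K' : ℝ := (6 * c1) ^ m * A' with hK'
  have hK'0 : 0 ≤ K' := by positivity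
  have hR'0 : 0 ≤ R' := (le_max_right _ _).trans (le_max_left _ _)
  set E' : ℝ → ℝ := fun x => if x ≤ R' then A else K' * E x with hE'
  have hneg : ∀ᵐ x : ℝ, 0 < x → -E' x ≤ u x := by
    filter_upwards [hW1, hW2, h] with x h1 h2 h3 hx0
    have hx0' : 0 ≤ x := hx0.le
    obtain ⟨g1, g2⟩ := h1 hx0
    have g3 := gw_nonneg hκ x
    rcases lt_or_ge R' x with hx | hx
    · simp only [hE']
      rw [if_neg (not_le.2 hx)]
      have r1 : R ≤ x := ((le_max_left _ _).trans ((le_max_left _ _).trans (le_max_left _ _))).trans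
        hx.le
      have r2 : ℓ < x := lt_of_le_of_lt
        ((le_max_right _ _).trans ((le_max_left _ _).trans (le_max_left _ _))) hx
      have h4 := h2 r2
      have h5 := h3 r1
      have e1 : W x * G x = ((-1) ^ cn Λ x * W x) * ((-1) ^ cn Λ x * G x) := by
        have : ((-1 : ℝ) ^ cn Λ x) * (-1) ^ cn Λ x = 1 := by
          rw [← mul_pow]
          norm_num
        linear_combination (-(W x * G x)) * this
      have e2 : (-1) ^ cn Λ x * W x = |W x| := by
        rw [← abs_of_nonneg h4, abs_mul, abs_pow, abs_neg, abs_one, one_pow, one_mul]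
      have h6 : -(E x) * |W x| ≤ W x * G x := by
        rw [e1, e2, mul_comm]
        exact mul_le_mul_of_nonneg_left h5 (abs_nonneg _)
      have h7 : |W x| ≤ (6 * c1) ^ m * (1 + x) ^ m := g2.trans (hlin x hx0')
      have h8 : -(E x) * ((6 * c1) ^ m * (1 + x) ^ m) ≤ W x * G x := by
        refine le_trans ?_ h6
        have a1 : E x * |W x| ≤ E x * ((6 * c1) ^ m * (1 + x) ^ m) :=
          mul_le_mul_of_nonneg_left h7 (hE0 x)
        linarith
      have h9 := hA' x hx0'
      have hEx := hE0 x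
      calc -(K' * E x) ≤ -((6 * c1) ^ m * (x ^ p * (1 + x) ^ m * gw κ hκ x) * E x) := by
            have a3 : (6 * c1) ^ m * (x ^ p * (1 + x) ^ m * gw κ hκ x) * E x ≤ K' * E x := by
              rw [hK']
              gcongr
            linarith
        _ = x ^ p * gw κ hκ x * (-(E x) * ((6 * c1) ^ m * (1 + x) ^ m)) := by
            ring
        _ ≤ u x := by
            simp only [hu]
            exact mul_le_mul_of_nonneg_left h8 (by positivity)
    · simp only [hE']
      rw [if_pos hx]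
      have h4 := hGE x hx0'
      have h5 := hA x hx0'
      rw [pow_zero, one_mul] at h5
      have h6 : |u x| ≤ A := by
        refine h4.trans (le_trans ?_ h5)
        gcongr
      have h8 := neg_abs_le (u x)
      linarith
  have hE'm : Measurable E' :=
    Measurable.ite measurableSet_Iic measurable_const (hE.const_mul K')
  have hfin := uniqHC hum hdec hmom hE'm (hC.ext hE hA0 hK'0 hR'0 (le_max_right _ _)) hneg
  refine dz_of_ae' hκ ?_
  filter_upwards [hfin, hW1] with x h1 h2 hx0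
  have h3 := h1 hx0
  obtain ⟨h4, -⟩ := h2 hx0
  simp only [hu] at h3
  have h5 : x ^ p * W x * (gw κ hκ x * G x) = 0 := by
    rw [← h3]
    ring
  exact (mul_eq_zero.1 h5).resolve_left (mul_ne_zero (pow_ne_zero p hx0.ne') h4)

/-- **one-sided bounds with a prescribed sign pattern determine the limit object** -/
theorem limPC {Φ : ℝ → ℝ} {μ ν e : ℝ} (H : LO Φ μ ν e) (he : e = 0) {Λ : Set ℝ} {d C : ℝ}
    (hd : d < 4 / 3) (hΛ : Dens Λ d C) {A0 R : ℝ} {E : ℝ → ℝ} (hE : Measurable E)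
    (hE0 : ∀ x, 0 ≤ E x) (hC : Carl A0 E)
    (h : ∀ᵐ x, R ≤ x → -E x ≤ (-1) ^ cn Λ x * Gd Φ μ x) : DZ (Gd Φ μ) := by
  obtain ⟨B, hB, hGB⟩ := Gd_bd H
  exact patt_uniqC (Gd_meas H) hB hGB 1 (fun κ β hκ hκβ n => Gd_ann H he hκ hκβ n) hd hΛ hE hE0 hC h

/-- the mass of `E` far away is small -/
lemma tail_small {A0 : ℝ} {E : ℝ → ℝ} (hC : Carl A0 E) {η : ℝ} (hη : 0 < η) :
    ∃ x0 : ℝ, 1 ≤ x0 ∧ A0 ≤ x0 ∧ ∫⁻ x in Ioi x0, ENNReal.ofReal (E x) < ENNReal.ofReal η := by
  obtain ⟨k, hk⟩ : ∃ k : ℕ, ∫⁻ x in Ioi A0, ENNReal.ofReal (x ^ (2 * (k + 1)) * E x) ≠ ∞ := by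
    by_contra hcon
    push Not at hcon
    unfold Carl CS at hC
    have h1 : ∀ k : ℕ, (∫⁻ x in Ioi A0, ENNReal.ofReal (x ^ (2 * (k + 1)) * E x)) ^
        (-(1 / (2 * ((k : ℝ) + 1)))) = 0 := fun k => by
      rw [hcon k, ENNReal.top_rpow_of_neg (by
        have : 0 < 1 / (2 * ((k : ℝ) + 1)) := by positivity
        linarith)]
    rw [tsum_congr h1, tsum_zero] at hC
    exact ENNReal.zero_ne_top hC
  set m : ℝ := (∫⁻ x in Ioi A0, ENNReal.ofReal (x ^ (2 * (k + 1)) * E x)).toReal with hm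
  have hm0 : 0 ≤ m := ENNReal.toReal_nonneg
  have hmE : ∫⁻ x in Ioi A0, ENNReal.ofReal (x ^ (2 * (k + 1)) * E x) = ENNReal.ofReal m :=
    (ENNReal.ofReal_toReal hk).symm
  set x0 : ℝ := max (max 1 A0) ((m + 1) / η) with hx0
  have h1 : 1 ≤ x0 := (le_max_left _ _).trans (le_max_left _ _)
  have h2 : A0 ≤ x0 := (le_max_right _ _).trans (le_max_left _ _)
  have h3 : (m + 1) / η ≤ x0 := le_max_right _ _
  refine ⟨x0, h1, h2, ?_⟩
  have h4 : ENNReal.ofReal (x0 ^ (2 * (k + 1))) * ∫⁻ x in Ioi x0, ENNReal.ofReal (E x) ≤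
      ENNReal.ofReal m := by
    rw [← lintegral_const_mul' _ _ ENNReal.ofReal_ne_top, ← hmE]
    refine le_trans ?_ (lintegral_mono_set (Ioi_subset_Ioi h2))
    refine setLIntegral_mono' measurableSet_Ioi fun x hx => ?_
    have hxx : x0 < x := hx
    rw [← ENNReal.ofReal_mul (by positivity)]
    rcases le_total 0 (E x) with hE | hE
    · refine ENNReal.ofReal_le_ofReal ?_
      gcongr
    · rw [ENNReal.ofReal_of_nonpos (mul_nonpos_of_nonneg_of_nonpos (by positivity) hE)]
      exact bot_le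
  by_contra hcon
  push Not at hcon
  have h5 : ENNReal.ofReal (x0 ^ (2 * (k + 1)) * η) ≤ ENNReal.ofReal m := by
    rw [ENNReal.ofReal_mul (by positivity)]
    exact (mul_le_mul_right hcon _).trans h4
  rw [ENNReal.ofReal_le_ofReal_iff hm0] at h5
  have h6 : x0 ≤ x0 ^ (2 * (k + 1)) := le_self_pow₀ h1 (by omega)
  rw [div_le_iff₀ hη] at h3
  nlinarith

/-- a one-sided bound in the mean implies a pointwise one, as the counts increase -/
lemma pointwise {Φ : ℝ → ℝ} {μ ν e : ℝ} (H : LO Φ μ ν e) {A0 R : ℝ} {E : ℝ → ℝ} (hC : Carl A0 E)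
    (h : ∀ᵐ x, R ≤ x → PP x - E x ≤ Φ x) {η : ℝ} (hη : 0 < η) :
    ∃ X : ℝ, 0 ≤ X ∧ ∀ y, X < y → PP y - η ≤ Φ y := by
  obtain ⟨x0, h1, h2, h3⟩ := tail_small hC (η := η / 2 * (η / 2)) (by positivity)
  refine ⟨max x0 R + η, by
    have := le_max_left x0 R
    linarith, fun y hy => ?_⟩
  by_contra hcon
  push Not at hcon
  have hx0y : x0 + η < y := by
    have := le_max_left x0 R
    linarith
  have hRy : R + η < y := by
    have := le_max_right x0 R
    linarith
  have h4 : ENNReal.ofReal (η / 2 * (η / 2)) ≤ ∫⁻ x in Ioi x0, ENNReal.ofReal (E x) := by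
    calc ENNReal.ofReal (η / 2 * (η / 2)) =
        ∫⁻ x in Ioo (y - η / 2) y, ENNReal.ofReal (η / 2) := by
          rw [setLIntegral_const, Real.volume_Ioo, ← ENNReal.ofReal_mul (by positivity)]
          congr 1
          ring
      _ ≤ ∫⁻ x in Ioo (y - η / 2) y, ENNReal.ofReal (E x) := by
          refine lintegral_mono_ae ?_
          rw [ae_restrict_iff' measurableSet_Ioo]
          filter_upwards [h] with z hz hzI
          refine ENNReal.ofReal_le_ofReal ?_
          have h5 := hz (by linarith [hzI.1])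
          have h6 := H.mono hzI.2.le
          have h7 := PP_lip hzI.2.le
          linarith [hzI.1]
      _ ≤ _ := lintegral_mono_set fun z hz => by
          have := hz.1
          show x0 < z
          linarith
  exact absurd h3 (not_lt.2 h4)

/-- lower bounds for the counts with an error in the Carleman class: everything follows -/
theorem limAC {Φ : ℝ → ℝ} {μ ν e : ℝ} (H : LO Φ μ ν e) {A0 R : ℝ} {E : ℝ → ℝ} (hE : Measurable E)
    (hE0 : ∀ x, 0 ≤ E x) (hC : Carl A0 E) (h : ∀ᵐ x, R ≤ x → PP x - E x ≤ Φ x) :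
    μ = 1 ∧ ν = 0 ∧ ∀ x, 0 < x → Φ x = PP x := by
  have hμ1 : 1 ≤ μ := by linarith [H.mu, H.e0, H.e1]
  have hμ2 : μ ≤ 1 := by
    refine le_of_forall_pos_le_add fun ε hε => ?_
    obtain ⟨X, hX0, hX⟩ := pointwise H hC h (η := ε / 2) (by positivity)
    have h1 := avg_lower H (x := X) (m := (μ - 1) / 2 - ε / 2) hX0 (by
      refine Eventually.of_forall fun y hy => ?_
      have := hX y hy
      unfold Gd
      linarith)
    linarith
  have hμ : μ = 1 := le_antisymm hμ2 hμ1
  have he : e = 0 := by linarith [H.mu, H.e0, H.e1]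
  have hΛ : Dens ∅ 0 0 := fun x L _ _ => by simp
  refine finish H (limPC H he (Λ := ∅) (by norm_num) hΛ hE hE0 hC (R := R) ?_)
  filter_upwards [h] with x hx h1
  have h2 := hx h1
  have h3 : cn ∅ x = 0 := by simp [cn]
  rw [h3, pow_zero, one_mul]
  unfold Gd
  rw [hμ]
  linarith

end Pool.Agent.U667.QA
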