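import Pool.Agent.U667.QA.Bang

set_option autoImplicit false

/-!
# An even function with vanishing moments and a negative part in the Carleman class
-/

namespace Pool.Agent.U667.QA

open Set Filter Topology MeasureTheory Complex
open scoped ENNReal

/-- Carleman's condition for a sequence of even moments -/
def CS (m : ℕ → ℝ≥0∞) : Prop := ∑' k : ℕ, (m k) ^ (-(1 / (2 * ((k : ℝ) + 1)))) = ∞

lemma tsum_min {x : ℕ → ℝ≥0∞} (hx : ∀ k, x k ≠ ∞) (h : ∑' k, x k = ∞) :
    ∑' k, min 1 (x k) = ∞ := by
  by_contra hne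
  have h1 := ENNReal.tendsto_atTop_zero_of_tsum_ne_top hne
  have h2 : ∀ᶠ k in atTop, min 1 (x k) < 1 := h1.eventually (gt_mem_nhds one_pos)
  obtain ⟨N, hN⟩ := eventually_atTop.1 h2
  have h3 : ∀ k, x (k + N) = min 1 (x (k + N)) := by
    intro k
    have h4 := hN (k + N) (by omega)
    rcases min_lt_iff.1 h4 with h5 | h5
    · exact absurd h5 (lt_irrefl _)
    · rw [min_eq_right h5.le]
  have h4 : ∑' k, x (k + N) ≠ ∞ := by
    have h5 : ∑' k, x (k + N) ≤ ∑' k, min 1 (x k) := by
      calc ∑' k, x (k + N) = ∑' k, min 1 (x (k + N)) := tsum_congr h3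
        _ ≤ ∑' k, min 1 (x k) :=
          ENNReal.tsum_comp_le_tsum_of_injective (add_left_injective N) (fun k => min 1 (x k))
    exact ne_top_of_le_ne_top hne h5
  have h5 : (∑ i ∈ Finset.range N, x i) + ∑' i, x (i + N) = ∑' i, x i :=
    Summable.sum_add_tsum_nat_add' ENNReal.summable
  rw [h] at h5
  have h6 : ∑ i ∈ Finset.range N, x i ≠ ∞ := ENNReal.sum_ne_top.2 fun i _ => hx i
  exact (ENNReal.add_ne_top.2 ⟨h6, h4⟩) h5

/-- stability of Carleman's condition -/
lemma CS.mono {m m' : ℕ → ℝ≥0∞} {C : ℝ≥0∞} (hC : C ≠ ∞)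
    (hm0 : (∃ k, m k = 0) → ∀ k, m k = 0)
    (h : ∀ k, m' k ≤ C ^ (2 * (k + 1)) * max 1 (m k)) (hm : CS m) : CS m' := by
  unfold CS at hm ⊢
  have hmin : ∑' k : ℕ, min 1 ((m k) ^ (-(1 / (2 * ((k : ℝ) + 1))))) = ∞ := by
    by_cases h0 : ∃ k, m k = 0
    · have h1 := hm0 h0
      have h2 : ∀ k : ℕ, min 1 ((m k) ^ (-(1 / (2 * ((k : ℝ) + 1))))) = 1 := by
        intro k
        rw [h1 k, ENNReal.zero_rpow_of_neg (by
          have : 0 < 1 / (2 * ((k : ℝ) + 1)) := by positivity
          linarith)]
        exact min_eq_left le_top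
      rw [tsum_congr h2]
      exact ENNReal.tsum_const_eq_top_of_ne_zero one_ne_zero
    · push Not at h0
      refine tsum_min (fun k => ?_) hm
      rw [ENNReal.rpow_neg]
      refine ENNReal.inv_ne_top.2 ?_
      refine (ENNReal.rpow_pos_of_nonneg (pos_iff_ne_zero.2 (h0 k)) (by positivity)).ne'
  -- compare
  set D : ℝ≥0∞ := max C 1 with hD
  have hD1 : D ≠ ∞ := (max_lt hC.lt_top ENNReal.one_lt_top).ne
  have hD0 : D ≠ 0 := (lt_of_lt_of_le one_pos (le_max_right _ _)).ne'
  have h1 : ∀ k : ℕ, D⁻¹ * min 1 ((m k) ^ (-(1 / (2 * ((k : ℝ) + 1))))) ≤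
      (m' k) ^ (-(1 / (2 * ((k : ℝ) + 1)))) := by
    intro k
    set p : ℝ := 1 / (2 * ((k : ℝ) + 1)) with hp
    have hp0 : 0 < p := by positivity
    have e1 : m' k ≤ D ^ (2 * (k + 1)) * max 1 (m k) := by
      refine (h k).trans ?_
      gcongr
      exact le_max_left _ _
    have e2 : (m' k) ^ p ≤ D * max 1 (m k ^ p) := by
      calc (m' k) ^ p ≤ (D ^ (2 * (k + 1)) * max 1 (m k)) ^ p :=
            ENNReal.rpow_le_rpow e1 hp0.le
        _ = (D ^ (2 * (k + 1))) ^ p * (max 1 (m k)) ^ p := ENNReal.mul_rpow_of_nonneg _ _ hp0.le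
        _ = D * max 1 (m k ^ p) := by
            congr 1
            · rw [← ENNReal.rpow_natCast, ← ENNReal.rpow_mul]
              have : (((2 * (k + 1) : ℕ) : ℝ)) * p = 1 := by
                rw [hp]
                push_cast
                field_simp
              rw [this, ENNReal.rpow_one]
            · rw [(ENNReal.monotone_rpow_of_nonneg hp0.le).map_max, ENNReal.one_rpow]
    rw [ENNReal.rpow_neg, ENNReal.rpow_neg]
    calc D⁻¹ * min 1 (m k ^ p)⁻¹ = (D * max 1 (m k ^ p))⁻¹ := by
          rw [ENNReal.mul_inv (Or.inl hD0) (Or.inl hD1)]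
          congr 1
          rcases le_total 1 (m k ^ p) with h2 | h2
          · rw [max_eq_right h2, min_eq_right (ENNReal.inv_le_one.2 h2)]
          · rw [max_eq_left h2, inv_one, min_eq_left (ENNReal.one_le_inv.2 h2)]
      _ ≤ _ := ENNReal.inv_le_inv.2 e2
  refine top_le_iff.1 (le_trans ?_ (ENNReal.tsum_le_tsum h1))
  rw [ENNReal.tsum_mul_left, hmin, ENNReal.mul_top (ENNReal.inv_ne_zero.2 hD1)]

/-- An even function all of whose moments vanish, and the negative part of which satisfies
Carleman's condition, vanishes almost everywhere. -/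
theorem uniqVC {U : ℝ → ℝ} (hUm : Measurable U) (hUe : ∀ x, U (-x) = U x)
    (hint : ∀ n : ℕ, Integrable fun x : ℝ => x ^ n * U x)
    (hz : ∀ n : ℕ, ∫ x : ℝ, x ^ (2 * n) * U x = 0)
    (hC : CS fun k => ∫⁻ x : ℝ, ENNReal.ofReal (-(x ^ (2 * (k + 1)) * U x))) :
    U =ᵐ[volume] 0 := by
  by_contra hU0
  set A : ℕ → ℝ := fun n => ∫ x : ℝ, |x| ^ n * |U x| with hA
  have habs : ∀ n : ℕ, Integrable fun x : ℝ => |x| ^ n * |U x| := fun n => by
    refine (hint n).abs.congr (ae_of_all _ fun x => ?_)
    beta_reduce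
    rw [abs_mul, abs_pow]
  have hApos : ∀ n, 0 < A n := by
    intro n
    refine lt_of_le_of_ne (integral_nonneg fun x => by positivity) fun h0 => ?_
    have h1 := (integral_eq_zero_iff_of_nonneg (fun x => by positivity) (habs n)).1 h0.symm
    apply hU0
    have hne : ∀ᵐ x : ℝ, x ≠ 0 := by
      rw [ae_iff]
      simp
    filter_upwards [h1, hne] with x hx hx0
    have h2 : |x| ^ n * |U x| = 0 := hx
    have h3 := (mul_eq_zero.1 h2).resolve_left (pow_ne_zero n (abs_ne_zero.2 hx0))
    exact abs_eq_zero.1 h3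
  -- logarithmic convexity
  have hlc : ∀ n, A (n + 1) * A (n + 1) ≤ A n * A (n + 2) := by
    intro n
    set l : ℝ := A (n + 1) / A n with hl
    have h1 : 0 ≤ ∫ x : ℝ, (|x| ^ (n + 2) * |U x| - 2 * l * (|x| ^ (n + 1) * |U x|) +
        l ^ 2 * (|x| ^ n * |U x|)) := by
      refine integral_nonneg fun x => ?_
      have : |x| ^ (n + 2) * |U x| - 2 * l * (|x| ^ (n + 1) * |U x|) + l ^ 2 * (|x| ^ n * |U x|) =
          (|x| - l) ^ 2 * (|x| ^ n * |U x|) := by ring
      simp only [Pi.zero_apply]
      rw [this]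
      positivity
    have i1 : Integrable fun x : ℝ => |x| ^ (n + 2) * |U x| - 2 * l * (|x| ^ (n + 1) * |U x|) :=
      (habs (n + 2)).sub ((habs (n + 1)).const_mul _)
    rw [integral_add i1 ((habs n).const_mul _),
      integral_sub (habs _) ((habs _).const_mul _), integral_const_mul, integral_const_mul] at h1
    have h2 : 0 ≤ A (n + 2) - 2 * l * A (n + 1) + l ^ 2 * A n := h1
    have h3 := hApos n
    have h4 : A n * (A (n + 2) - 2 * l * A (n + 1) + l ^ 2 * A n) =
        A n * A (n + 2) - A (n + 1) * A (n + 1) := by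
      rw [hl]
      field_simp
      ring
    have h5 := mul_nonneg h3.le h2
    linarith
  -- the derivatives of the Fourier transform
  set F : ℕ → ℝ → ℂ := fun n t => ∫ x : ℝ, ((x : ℂ) * I) ^ n * cexp (t * x * I) * (U x : ℂ)
    with hF
  have hnorm : ∀ (n : ℕ) (t x : ℝ),
      ‖((x : ℂ) * I) ^ n * cexp (t * x * I) * (U x : ℂ)‖ = |x| ^ n * |U x| := by
    intro n t x
    have h1 : ‖cexp (t * x * I)‖ = 1 := by
      have := Complex.norm_exp_ofReal_mul_I (t * x)
      push_cast at this
      exact this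
    rw [norm_mul, norm_mul, h1, norm_pow, norm_mul, norm_I, norm_real, norm_real,
      Real.norm_eq_abs, Real.norm_eq_abs, mul_one, mul_one]
  have hmeas : ∀ (n : ℕ) (t : ℝ), Measurable
      fun x : ℝ => ((x : ℂ) * I) ^ n * cexp (t * x * I) * (U x : ℂ) := by
    intro n t
    fun_prop
  have hFint : ∀ (n : ℕ) (t : ℝ), Integrable
      fun x : ℝ => ((x : ℂ) * I) ^ n * cexp (t * x * I) * (U x : ℂ) := by
    intro n t
    refine (habs n).mono' (hmeas n t).aestronglyMeasurable (ae_of_all _ fun x => ?_)
    rw [hnorm]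
  have hd : ∀ n t, HasDerivAt (F n) (F (n + 1) t) t := by
    intro n t
    have h := hasDerivAt_integral_of_dominated_loc_of_deriv_le (μ := volume) (𝕜 := ℝ)
      (F := fun t x => ((x : ℂ) * I) ^ n * cexp (t * x * I) * (U x : ℂ))
      (F' := fun t x => ((x : ℂ) * I) ^ (n + 1) * cexp (t * x * I) * (U x : ℂ)) (x₀ := t)
      (s := univ) (bound := fun x => |x| ^ (n + 1) * |U x|) univ_mem
      (Eventually.of_forall fun s => (hmeas n s).aestronglyMeasurable) (hFint n t)
      (hmeas (n + 1) t).aestronglyMeasurable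
      (ae_of_all _ fun x s _ => (hnorm (n + 1) s x).le) (habs (n + 1))
      (ae_of_all _ fun x s _ => ?_)
    · exact h.2
    · have h1 : HasDerivAt (fun s : ℝ => ((s : ℂ) * x * I)) (x * I) s := by
        have := (((hasDerivAt_id s).ofReal_comp).mul_const (x : ℂ)).mul_const I
        simpa using this
      have h2 := ((h1.cexp).const_mul (((x : ℂ) * I) ^ n)).mul_const (U x : ℂ)
      refine h2.congr_deriv ?_
      ring
  have hb : ∀ n t, ‖F n t‖ ≤ A n := by
    intro n t
    refine (norm_integral_le_integral_norm _).trans (le_of_eq ?_)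
    simp only [hA, hnorm]
  have h0 : ∀ n, F n 0 = 0 := by
    intro n
    have e1 : ∀ x : ℝ, ((x : ℂ) * I) ^ n * cexp ((0 : ℝ) * x * I) * (U x : ℂ) =
        I ^ n * ((x ^ n * U x : ℝ) : ℂ) := by
      intro x
      rw [ofReal_zero, zero_mul, zero_mul, Complex.exp_zero]
      push_cast
      ring
    have e2 : ∫ x : ℝ, x ^ n * U x = 0 := by
      rcases Nat.even_or_odd n with he | ho
      · obtain ⟨k, hk⟩ := he
        rw [hk, ← two_mul]
        exact hz k
      · have e := integral_neg_eq_self (fun x : ℝ => x ^ n * U x) volume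
        have e3 : ∀ x : ℝ, (-x) ^ n * U (-x) = -(x ^ n * U x) := by
          intro x
          rw [hUe, ho.neg_pow]
          ring
        simp only [e3, integral_neg] at e
        linarith
    simp only [hF]
    rw [integral_congr_ae (ae_of_all _ e1), integral_const_mul, integral_complex_ofReal, e2]
    simp
  -- the even moments
  have hev : ∀ k : ℕ, ∫⁻ x : ℝ, ENNReal.ofReal (-(x ^ (2 * (k + 1)) * U x)) =
      ENNReal.ofReal (A (2 * (k + 1)) / 2) := by
    intro k
    have hi := hint (2 * (k + 1))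
    have e1 : ∫ x : ℝ, max (-(x ^ (2 * (k + 1)) * U x)) 0 = A (2 * (k + 1)) / 2 := by
      have e2 : ∀ x : ℝ, max (-(x ^ (2 * (k + 1)) * U x)) 0 =
          (1 / 2) * (|x| ^ (2 * (k + 1)) * |U x|) - (1 / 2) * (x ^ (2 * (k + 1)) * U x) := by
        intro x
        have e3 : |x| ^ (2 * (k + 1)) * |U x| = |x ^ (2 * (k + 1)) * U x| := by
          rw [abs_mul, abs_pow]
        rw [e3]
        rcases le_total 0 (x ^ (2 * (k + 1)) * U x) with h | h
        · rw [abs_of_nonneg h, max_eq_right (by linarith)]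
          ring
        · rw [abs_of_nonpos h, max_eq_left (by linarith)]
          ring
      simp_rw [e2]
      rw [integral_sub ((habs _).const_mul _) (hi.const_mul _), integral_const_mul,
        integral_const_mul, hz]
      simp only [hA]
      ring
    rw [← e1, ofReal_integral_eq_lintegral_ofReal]
    · refine lintegral_congr fun x => ?_
      rcases le_total 0 (-(x ^ (2 * (k + 1)) * U x)) with h | h
      · rw [max_eq_left h]
      · rw [max_eq_right h, ENNReal.ofReal_of_nonpos h, ENNReal.ofReal_zero]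
    · exact hi.neg.pos_part
    · exact ae_of_all _ fun x => le_max_right _ _
  -- the series of the ratios diverges
  have hns : ¬ Summable fun n => A n / A (n + 1) := by
    refine not_summable_ratio hApos fun hsum => ?_
    have hinj : Function.Injective fun k : ℕ => 2 * k + 1 := fun a b h => by
      simp only at h
      omega
    have h1 := hsum.comp_injective hinj
    set c : ℝ := min 1 (A 0 / 2) with hc
    have hc0 : 0 < c := lt_min one_pos (by have := hApos 0; linarith)
    have h2 : Summable fun k : ℕ => (A (2 * (k + 1)) / 2) ^ (-(1 / (2 * ((k : ℝ) + 1)))) := by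
      have h3 : Summable fun k : ℕ => c⁻¹ *
          (A 0 / A (2 * k + 1 + 1)) ^ (1 / (((2 * k + 1 : ℕ) : ℝ) + 1)) := h1.mul_left _
      refine Summable.of_nonneg_of_le (fun k => ?_) (fun k => ?_) h3
      · have := hApos (2 * (k + 1))
        positivity
      · set p : ℝ := 1 / (2 * ((k : ℝ) + 1)) with hp
        have hp0 : 0 < p := by positivity
        have hp1 : p ≤ 1 := by
          rw [hp, div_le_one (by positivity)]
          have : (0 : ℝ) ≤ k := Nat.cast_nonneg k
          linarith
        have e1 : 1 / (((2 * k + 1 : ℕ) : ℝ) + 1) = p := by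
          rw [hp]
          push_cast
          congr 1
          ring
        rw [e1, show 2 * k + 1 + 1 = 2 * (k + 1) by ring]
        set B : ℝ := A (2 * (k + 1)) with hB
        have hB0 : 0 < B := hApos _
        have hA0 := hApos 0
        have e2 : A 0 / B = (A 0 / 2) / (B / 2) := by field_simp
        have e5 : (A 0 / 2 / (B / 2)) ^ p = (A 0 / 2) ^ p / (B / 2) ^ p :=
          Real.div_rpow (by positivity) (by positivity) _
        rw [e2, e5, Real.rpow_neg (by positivity)]
        have e3 : c ≤ (A 0 / 2) ^ p := by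
          rcases le_total 1 (A 0 / 2) with h | h
          · exact (min_le_left _ _).trans (Real.one_le_rpow h hp0.le)
          · calc c ≤ (A 0 / 2) ^ (1 : ℝ) := by rw [Real.rpow_one]; exact min_le_right _ _
              _ ≤ _ := Real.rpow_le_rpow_of_exponent_ge (by positivity) h hp1
        have e4 : 0 < (B / 2) ^ p := by positivity
        rw [← mul_div_assoc, inv_eq_one_div ((B / 2) ^ p), div_le_div_iff_of_pos_right e4,
          ← div_eq_inv_mul, le_div_iff₀ hc0, one_mul]
        exact e3
    -- back to `ℝ≥0∞`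
    unfold CS at hC
    simp only [hev] at hC
    have h3 : ∀ k : ℕ, (ENNReal.ofReal (A (2 * (k + 1)) / 2)) ^ (-(1 / (2 * ((k : ℝ) + 1)))) =
        ENNReal.ofReal ((A (2 * (k + 1)) / 2) ^ (-(1 / (2 * ((k : ℝ) + 1))))) := by
      intro k
      have := hApos (2 * (k + 1))
      rw [ENNReal.ofReal_rpow_of_pos (by positivity)]
    rw [tsum_congr h3, ← ENNReal.ofReal_tsum_of_nonneg (fun k => by
      have := hApos (2 * (k + 1))
      positivity) h2] at hC
    exact ENNReal.ofReal_ne_top hC
  -- the Fourier transform vanishes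
  have hFz : ∀ t : ℝ, F 0 t = 0 := fun t => bang' hApos hlc hd hb h0 hns t
  apply hU0
  have hU1 : Integrable U := by simpa using hint 0
  set μ : Measure ℝ := volume.withDensity (fun x => ENNReal.ofReal (U x)) with hμ
  set ν : Measure ℝ := volume.withDensity (fun x => ENNReal.ofReal (-U x)) with hν
  have m1 : Measurable fun x => ENNReal.ofReal (U x) := hUm.ennreal_ofReal
  have m2 : Measurable fun x => ENNReal.ofReal (-U x) := hUm.neg.ennreal_ofReal
  have f1 : ∫⁻ x, ENNReal.ofReal (U x) ≠ ∞ := hU1.lintegral_lt_top.ne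
  have f2 : ∫⁻ x, ENNReal.ofReal (-U x) ≠ ∞ := hU1.neg.lintegral_lt_top.ne
  have : IsFiniteMeasure μ := isFiniteMeasure_withDensity f1
  have : IsFiniteMeasure ν := isFiniteMeasure_withDensity f2
  have heq : μ = ν := by
    refine Measure.ext_of_charFun ?_
    funext t
    have hE : ∀ x : ℝ, ‖cexp (t * x * I)‖ = 1 := fun x => by
      have := Complex.norm_exp_ofReal_mul_I (t * x)
      push_cast at this
      exact this
    have c1 : charFun μ t = ∫ x : ℝ, ((max (U x) 0 : ℝ) : ℂ) * cexp (t * x * I) := by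
      rw [charFun_apply_real, hμ,
        integral_withDensity_eq_integral_toReal_smul m1 (ae_of_all _ fun x => ENNReal.ofReal_lt_top)]
      refine integral_congr_ae (ae_of_all _ fun x => ?_)
      beta_reduce
      rw [ENNReal.toReal_ofReal', Complex.real_smul]
    have c2 : charFun ν t = ∫ x : ℝ, ((max (-U x) 0 : ℝ) : ℂ) * cexp (t * x * I) := by
      rw [charFun_apply_real, hν,
        integral_withDensity_eq_integral_toReal_smul m2 (ae_of_all _ fun x => ENNReal.ofReal_lt_top)]
      refine integral_congr_ae (ae_of_all _ fun x => ?_)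
      beta_reduce
      rw [ENNReal.toReal_ofReal', Complex.real_smul]
    have i1 : Integrable fun x : ℝ => ((max (U x) 0 : ℝ) : ℂ) * cexp (t * x * I) := by
      refine hU1.pos_part.norm.mono' ?_ (ae_of_all _ fun x => ?_)
      · exact (by fun_prop : Measurable fun x : ℝ =>
          ((max (U x) 0 : ℝ) : ℂ) * cexp (t * x * I)).aestronglyMeasurable
      · rw [norm_mul, hE, mul_one, norm_real]
    have i2 : Integrable fun x : ℝ => ((max (-U x) 0 : ℝ) : ℂ) * cexp (t * x * I) := by
      refine hU1.neg.pos_part.norm.mono' ?_ (ae_of_all _ fun x => ?_)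
      · exact (by fun_prop : Measurable fun x : ℝ =>
          ((max (-U x) 0 : ℝ) : ℂ) * cexp (t * x * I)).aestronglyMeasurable
      · rw [norm_mul, hE, mul_one, norm_real]
        exact le_rfl
    rw [c1, c2, ← sub_eq_zero, ← integral_sub i1 i2]
    have h1 := hFz t
    simp only [hF] at h1
    rw [← h1]
    refine integral_congr_ae (ae_of_all _ fun x => ?_)
    beta_reduce
    have h2 : max (U x) 0 - max (-U x) 0 = U x := by
      rcases le_total 0 (U x) with h | h
      · rw [max_eq_left h, max_eq_right (by linarith), sub_zero]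
      · rw [max_eq_right h, max_eq_left (by linarith)]
        ring
    rw [← sub_mul, ← ofReal_sub, h2, pow_zero, one_mul, mul_comm]
  have hae : (fun x => ENNReal.ofReal (U x)) =ᵐ[volume] fun x => ENNReal.ofReal (-U x) :=
    (withDensity_eq_iff m1.aemeasurable m2.aemeasurable f1).1 heq
  filter_upwards [hae] with x hx
  rcases lt_trichotomy (U x) 0 with h | h | h
  · rw [ENNReal.ofReal_of_nonpos h.le, eq_comm, ENNReal.ofReal_eq_zero] at hx
    linarith
  · exact h
  · rw [ENNReal.ofReal_of_nonpos (by linarith : -U x ≤ 0), ENNReal.ofReal_eq_zero] at hx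
    linarith

end Pool.Agent.U667.QA
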